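import Pool.Agent.TIFB.Mat
import Pool.Agent.TIF.EndADefs
import Pool.Agent.TIFP.Conj

/-!
# [TIF] `TorsOut` from divisibility, the field of definition of the torsion and the pairing
-/

set_option autoImplicit false
set_option linter.unusedSectionVars false

open Polynomial GT

namespace TIF

open Pool.Agent.TIFB

section

variable {k Ω : Type} [Field k] [Field Ω] [Algebra k Ω] {d : ℕ} [NeZero d] {T : Tab Ω d}

/-- There is a Frobenius. -/
theorem exists_frob [Finite k] [IsAlgClosed Ω] : ∃ φ : Ω ≃ₐ[k] Ω, IsFrob k φ := by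
  let _ := Fintype.ofFinite k
  let A := algebraicClosure k Ω
  let F : A →ₐ[k] A := (FiniteField.frobeniusAlgEquivOfAlgebraic k A : A ≃ₐ[k] A)
  obtain ⟨σ, hσ⟩ := Pool.Agent.TIFP.exists_aut (A := A) A.val (A.val.comp F) (by
    rw [trdeg_eq_zero]
    exact Cardinal.aleph0_pos)
  refine ⟨σ, fun x hx => ?_⟩
  have h1 := hσ ⟨x, mem_algebraicClosure_iff.2 hx⟩
  rw [Nat.card_eq_fintype_card]
  exact h1

theorem IsFrob.pow_apply [Finite k] {φ : Ω ≃ₐ[k] Ω} (hφ : IsFrob k φ) (m : ℕ) (x : Ω)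
    (hx : x ∈ kb k Ω) : (φ ^ m) x = x ^ (Nat.card k) ^ m := by
  induction m with
  | zero => rw [pow_zero, pow_zero, pow_one]; rfl
  | succ m ih =>
    rw [pow_succ', AlgEquiv.mul_apply, ih, map_pow, hφ x hx, ← pow_mul, ← pow_succ']

/-- On finitely many algebraic elements every automorphism is a power of the Frobenius. -/
theorem exists_pow_frob [Finite k] {φ : Ω ≃ₐ[k] Ω} (hφ : IsFrob k φ) (σ : Ω ≃ₐ[k] Ω) (C : Set Ω)
    (hC : C.Finite) (hCk : C ⊆ kb k Ω) : ∃ m : ℕ, ∀ x ∈ C, σ x = (φ ^ m) x := by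
  let _ := Fintype.ofFinite k
  let L := IntermediateField.adjoin k C
  have hfd : FiniteDimensional k L := by
    have : Finite C := hC
    exact IntermediateField.finiteDimensional_adjoin fun x hx => (hCk hx).isIntegral
  have hfL : Finite L := Module.finite_of_finite k
  let _ := Fintype.ofFinite L
  obtain ⟨m, hm⟩ := (FiniteField.bijective_frobeniusAlgEquivOfAlgebraic_pow k L).2
    (σ.restrictNormal L)
  refine ⟨m, fun x hx => ?_⟩
  have hxL : x ∈ L := IntermediateField.subset_adjoin k C hx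
  have h1 := σ.restrictNormal_commutes L ⟨x, hxL⟩
  have h2 : σ x = ((σ.restrictNormal L ⟨x, hxL⟩ : L) : Ω) := h1.symm
  rw [h2, ← hm, hφ.pow_apply m x (hCk hx)]
  have h3 : ∀ (m : ℕ) (y : L), ((FiniteField.frobeniusAlgEquivOfAlgebraic k L) ^ m) y
      = y ^ (Fintype.card k) ^ m := by
    intro m
    induction m with
    | zero => intro y; rw [pow_zero, pow_zero, pow_one]; rfl
    | succ m ih =>
      intro y
      rw [pow_succ, AlgEquiv.mul_apply, ih]
      change (y ^ Fintype.card k) ^ (Fintype.card k) ^ m = _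
      rw [← pow_mul, ← pow_succ']
  rw [h3, Nat.card_eq_fintype_card]
  rfl

variable [IsDedekindDomain (WB T)]

theorem act_eq_of_span (hT : Tk k T) (σ τ : Ω ≃ₐ[k] Ω) (I : Ideal (WB T)) (hI : I ≠ ⊥)
    (S : Set (WB T)) (hS : I = Ideal.span S)
    (hστ : ∀ b ∈ S, ∀ j n, σ ((b.co j).coeff n) = τ ((b.co j).coeff n)) :
    act hT σ (cls I) = act hT τ (cls I) := by
  have h1 : ∀ b ∈ S, rac hT σ b = rac hT τ b := by
    intro b hb
    refine WB.ext (funext fun j => ?_)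
    rw [rac, bE_co, rac, bE_co]
    ext n
    rw [Polynomial.coeff_map, Polynomial.coeff_map]
    exact hστ b hb j n
  rw [act, act, clm_cls _ hI, clm_cls _ hI]
  congr 1
  rw [hS]
  change (Ideal.span S).map (rac hT σ : WB T →+* WB T) = (Ideal.span S).map
    (rac hT τ : WB T →+* WB T)
  rw [Ideal.map_span, Ideal.map_span]
  congr 1
  exact Set.image_congr h1

variable [IsAlgClosed Ω]

/-- `pro` -/
theorem pro_of [Finite k] (hT : Tk k T) (F : Set (ClassGroup (WB T))) (hF : F.Finite)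
    (hFk : ∀ D ∈ F, D ∈ JK (T := T) (kb k Ω)) {φ : Ω ≃ₐ[k] Ω} (hφ : IsFrob k φ)
    (σ : Ω ≃ₐ[k] Ω) : ∃ m : ℕ, ∀ D ∈ F, act hT σ D = act hT (φ ^ m) D := by
  classical
  have h1 : ∀ D ∈ F, ∃ S : Finset (WB T), (∀ b ∈ S, Cf (kb k Ω) b) ∧
      rdc D = Ideal.span (S : Set (WB T)) := by
    intro D hD
    have h2 : rdc D = Ideal.span {b | b ∈ rdc D ∧ Cf (kb k Ω) b} := hFk D hD
    have h3 : (Ideal.span {b | b ∈ rdc D ∧ Cf (kb k Ω) b}).FG := IsNoetherian.noetherian _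
    obtain ⟨S, hS, hS2⟩ := (Submodule.fg_span_iff_fg_span_finset_subset _).1 h3
    refine ⟨S, fun b hb => (hS hb).2, ?_⟩
    rw [h2]
    exact hS2
  choose! S hS1 hS2 using h1
  let C : Set Ω := ⋃ D ∈ F, ⋃ b ∈ S D, ⋃ j : ZMod d, ((b.co j).coeffs : Set Ω)
  have hCfin : C.Finite := hF.biUnion fun D _ => (S D).finite_toSet.biUnion fun b _ =>
    Set.finite_iUnion fun j => Finset.finite_toSet _
  have hCk : C ⊆ kb k Ω := by
    intro x hx
    simp only [C, Set.mem_iUnion] at hx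
    obtain ⟨D, hD, b, hb, j, hx⟩ := hx
    obtain ⟨n, -, rfl⟩ := Polynomial.mem_coeffs_iff.1 hx
    exact hS1 D hD b hb j n
  obtain ⟨m, hm⟩ := exists_pow_frob hφ σ C hCfin hCk
  refine ⟨m, fun D hD => ?_⟩
  rw [← cls_rdc D]
  refine act_eq_of_span hT σ (φ ^ m) (rdc D) (rdc_ne D) (S D) (hS2 D hD) fun b hb j n => ?_
  by_cases h0 : (b.co j).coeff n = 0
  · rw [h0, map_zero, map_zero]
  · apply hm
    simp only [C, Set.mem_iUnion]
    exact ⟨D, hD, b, hb, j, Polynomial.coeff_mem_coeffs h0⟩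

/-- **TORS**: the output of TORS from divisibility, the order of `J[ℓ]`, the field of definition of
the torsion, and the pairing. -/
theorem torsOut_of [Finite k] (hT : Tk k T) (ℓ : ℕ) [Fact ℓ.Prime] (hℓ : (ℓ : k) ≠ 0)
    (e : ℕ → ClassGroup (WB T) → ClassGroup (WB T) → Ω)
    (hdiv : ∀ D : ClassGroup (WB T), ∃ E, E ^ ℓ = D) {h : ℕ}
    (hcard : Nat.card {D : ClassGroup (WB T) // D ^ ℓ = 1} = ℓ ^ h)
    (htors : ∀ n (D : ClassGroup (WB T)), D ^ ℓ ^ n = 1 → D ∈ JK (T := T) (kb k Ω))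
    (P : LPair ℓ e)
    (hequ : ∀ (σ : Ω ≃ₐ[k] Ω) n D D', D ^ ℓ ^ n = 1 → D' ^ ℓ ^ n = 1 →
      e (ℓ ^ n) (act hT σ D) (act hT σ D') = σ (e (ℓ ^ n) D D')) :
    TorsOut k hT ℓ e := by
  have hfin : ∀ n, {D : ClassGroup (WB T) | D ^ ℓ ^ n = 1}.Finite := by
    intro n
    obtain ⟨tau, H⟩ := exists_TBs hdiv hcard
    have h1 : {D : ClassGroup (WB T) | D ^ ℓ ^ n = 1} ⊆
        (Set.range fun a : Fin h → Fin (ℓ ^ n) => tau n fun i => ((a i : ℕ) : ℤ_[ℓ])) := by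
      intro D hD
      obtain ⟨x, rfl⟩ := H.sur n D hD
      refine ⟨fun i => ⟨(x i).appr n, PadicInt.appr_lt _ _⟩, ?_⟩
      have h2 : ∀ i, ∃ y : ℤ_[ℓ], x i - (x i).appr n = (ℓ : ℤ_[ℓ]) ^ n * y := by
        intro i
        have := PadicInt.appr_spec n (x i)
        rwa [Ideal.mem_span_singleton] at this
      choose y hy using h2
      have h3 : x = (fun i => (((x i).appr n : ℕ) : ℤ_[ℓ])) + (ℓ : ℤ_[ℓ]) ^ n • y := by
        funext i
        rw [Pi.add_apply, Pi.smul_apply, smul_eq_mul, ← hy i]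
        ring
      have h4 := H.add n (fun i => (((x i).appr n : ℕ) : ℤ_[ℓ])) ((ℓ : ℤ_[ℓ]) ^ n • y)
      rw [← h3, (H.ker n _).2 ⟨y, rfl⟩, mul_one] at h4
      exact h4.symm
    exact (Set.finite_range _).subset h1
  have hℓΩ : (ℓ : Ω) ≠ 0 := by
    rw [← map_natCast (algebraMap k Ω)]
    exact (_root_.map_ne_zero _).2 hℓ
  refine ⟨hdiv, exists_frob, fun φ hφ σ n => ?_, fun h' tau H => ?_⟩
  · obtain ⟨m, hm⟩ := pro_of hT _ (hfin n) (fun D hD => htors n D hD) hφ σ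
    exact ⟨m, fun D hD => hm D hD⟩
  · have H' : TBs ℓ h' tau := ⟨⟨H.add, H.step, H.ker⟩, H.sur⟩
    obtain ⟨zeta, hs, hz⟩ := exists_zeta (Ω := Ω) hℓΩ
    obtain ⟨E, hE1, hE2, hE3⟩ := gram hz hs H' P
    refine ⟨zeta, E, hs, hz, hE1, hE2, hE3, fun φ hφ R hR => ?_⟩
    refine gram_sim hz H'.toTS E hE3 (act hT φ) (Nat.card k) ?_ R hR
    intro n D D' hD hD'
    rw [hequ φ n D D' hD hD']
    apply hφ
    have h5 := P.pow n D D' hD hD'
    refine ⟨Polynomial.X ^ ℓ ^ n - 1, ?_, ?_⟩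
    · exact Polynomial.X_pow_sub_C_ne_zero (pow_pos (Fact.out : ℓ.Prime).pos n) 1
    · rw [map_sub, map_pow, Polynomial.aeval_X, map_one, h5, sub_self]

end

end TIF
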