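import Pool.Agent.TIFB.Lim
import Pool.Agent.TIFB.Tors
import Pool.Agent.TIFP.Bcl
import Pool.Agent.TIF.Stmt

/-!
# [TIF LINK] (e3): Tate's theorem and semisimplicity over `Ω`, in matrix form for the class group over
an algebraically closed subfield `A`
-/

set_option autoImplicit false
set_option linter.unusedSectionVars false

open Polynomial GT

namespace Pool.Agent.TIFB

open TIF Pool.Agent.TIFP Pool.Agent.TIFT Pool.Agent.TIFS

/-- An automorphism of a subfield extends to the algebraically closed field. -/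
theorem exists_ext {A Ω : Type} [Field A] [Field Ω] [Algebra A Ω] [IsAlgClosed Ω] (γ : A ≃+* A) :
    ∃ σ : Ω ≃+* Ω, ∀ a, σ (algebraMap A Ω a) = algebraMap A Ω (γ a) := by
  obtain ⟨ι, v, hv⟩ := exists_isTranscendenceBasis' A Ω
  let _ := IsAlgClosed.isAlgClosure_of_transcendence_basis v hv
  let f : Algebra.adjoin A (Set.range v) ≃+* Algebra.adjoin A (Set.range v) :=
    hv.1.aevalEquiv.symm.toRingEquiv.trans
      ((MvPolynomial.mapEquiv ι γ).trans hv.1.aevalEquiv.toRingEquiv)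
  refine ⟨IsAlgClosure.equivOfEquiv Ω Ω f, fun a => ?_⟩
  have h1 : algebraMap A Ω a = algebraMap (Algebra.adjoin A (Set.range v)) Ω (algebraMap A _ a) := rfl
  rw [h1, IsAlgClosure.equivOfEquiv_algebraMap]
  have h2 : f (algebraMap A _ a) = algebraMap A _ (γ a) := by
    change hv.1.aevalEquiv (MvPolynomial.mapEquiv ι γ (hv.1.aevalEquiv.symm (algebraMap A _ a))) = _
    rw [AlgEquiv.commutes, MvPolynomial.algebraMap_eq]
    rw [MvPolynomial.mapEquiv_apply, MvPolynomial.map_C, ← MvPolynomial.algebraMap_eq]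
    exact hv.1.aevalEquiv.commutes (γ a)
  rw [h2]
  rfl

/-- A finite field has an extension of every degree in an algebraically closed field. -/
theorem exists_kr (k A : Type) [Field k] [Finite k] [Field A] [Algebra k A] [IsAlgClosed A] {r : ℕ}
    (hr : 0 < r) : ∃ (k' : Type) (_ : Field k') (_ : Finite k') (_ : Algebra k k')
      (_ : Algebra k' A) (_ : IsScalarTower k k' A), Nat.card k' = Nat.card k ^ r := by
  obtain ⟨p, hp⟩ := CharP.exists k
  have hp' : Fact p.Prime := ⟨CharP.char_is_prime k p⟩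
  have : NeZero r := ⟨hr.ne'⟩
  let E := FiniteField.Extension k p r
  let f : E →ₐ[k] A := IsAlgClosed.lift
  exact ⟨E, inferInstance, inferInstance, inferInstance, (f : E →+* A).toAlgebra,
    @IsScalarTower.of_algebraMap_eq k E A _ _ _ _ (f : E →+* A).toAlgebra _
      fun r => (f.commutes r).symm, FiniteField.natCard_extension k p r⟩

section

variable {k A Ω : Type} [Field k] [Finite k] [Field A] [Field Ω] [Algebra k A] [Algebra k Ω]
  [Algebra A Ω] [IsScalarTower k A Ω] [IsAlgClosed A] [IsAlgClosed Ω] {d : ℕ} [NeZero d]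
  {TA : Tab A d} {T : Tab Ω d} (h : TA.map (algebraMap A Ω) = T)
  [IsDedekindDomain (WB T)] [IsDedekindDomain (WB TA)] {ℓ : ℕ} [Fact ℓ.Prime]

/-- The algebraic elements are in `A`. -/
theorem kb_sub : kb k Ω ⊆ ((⊥ : IntermediateField A Ω) : Set Ω) := by
  intro x hx
  have h1 : IsAlgebraic A x := hx.tower_top A
  obtain ⟨a, ha⟩ := (IsAlgClosed.algebraMap_bijective_of_isIntegral (k := A)
    (K := algebraicClosure A Ω)).2 ⟨x, mem_algebraicClosure_iff.2 h1⟩
  exact IntermediateField.mem_bot.2 ⟨a, congrArg Subtype.val ha⟩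

theorem tb_bcl (htors : ∀ n (D : ClassGroup (WB T)), D ^ ℓ ^ n = 1 → D ∈ JK (T := T) (kb k Ω))
    {hh : ℕ} {tau : ℕ → (Fin hh → ℤ_[ℓ]) → ClassGroup (WB TA)} (H : TBs ℓ hh tau) :
    TB T ℓ hh fun n x => bcl (algebraMap A Ω) h (tau n x) where
  add n x y := by rw [H.add, map_mul]
  step n x := by rw [← map_pow, H.step]
  ker n x := by
    rw [← H.ker n x, ← map_one (bcl (algebraMap A Ω) h)]
    exact (bcl_inj h).eq_iff
  sur n D hD := by
    obtain ⟨D₀, rfl⟩ := (mem_range_bcl h D).1 (JK_mono (kb_sub (k := k)) (htors n D hD))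
    obtain ⟨x, hx⟩ := H.sur n D₀ (by
      apply bcl_inj h
      rw [map_pow, hD, map_one])
    exact ⟨x, by rw [hx]⟩

/-- The automorphisms of `A / k` extend to automorphisms of `Ω / k`. -/
theorem exists_extk {k A Ω : Type} [Field k] [Field A] [Field Ω] [Algebra k A] [Algebra k Ω]
    [Algebra A Ω] [IsScalarTower k A Ω] [IsAlgClosed Ω] (γ : A ≃+* A)
    (hγ : ∀ c : k, γ (algebraMap k A c) = algebraMap k A c) :
    ∃ σ : Ω ≃ₐ[k] Ω, ∀ a, σ (algebraMap A Ω a) = algebraMap A Ω (γ a) := by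
  obtain ⟨σ, hσ⟩ := exists_ext (Ω := Ω) γ
  refine ⟨AlgEquiv.ofRingEquiv (f := σ) fun c => ?_, hσ⟩
  rw [IsScalarTower.algebraMap_apply k A Ω, hσ, hγ]

theorem TBs.finite {B : Type*} [CommGroup B] {h : ℕ} {tau : ℕ → (Fin h → ℤ_[ℓ]) → B}
    (H : TBs ℓ h tau) (n : ℕ) : {D : B | D ^ ℓ ^ n = 1}.Finite := by
  have h1 : {D : B | D ^ ℓ ^ n = 1} ⊆
      (Set.range fun a : Fin h → Fin (ℓ ^ n) => tau n fun i => ((a i : ℕ) : ℤ_[ℓ])) := by
    intro D hD
    obtain ⟨x, rfl⟩ := H.sur n D hD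
    refine ⟨fun i => ⟨(x i).appr n, PadicInt.appr_lt _ _⟩, ?_⟩
    have h2 : ∀ i, ∃ y : ℤ_[ℓ], x i - (x i).appr n = (ℓ : ℤ_[ℓ]) ^ n * y := by
      intro i
      have := PadicInt.appr_spec n (x i)
      rwa [Ideal.mem_span_singleton] at this
    choose y hy using h2
    have h3 : x = (fun i => (((x i).appr n : ℕ) : ℤ_[ℓ])) + (ℓ : ℤ_[ℓ]) ^ n • y := by
      funext i
      rw [Pi.add_apply, Pi.smul_apply, smul_eq_mul, ← hy i]
      ring
    have h4 := H.add n (fun i => (((x i).appr n : ℕ) : ℤ_[ℓ])) ((ℓ : ℤ_[ℓ]) ^ n • y)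
    rw [← h3, (H.ker n _).2 ⟨y, rfl⟩, mul_one] at h4
    exact h4.symm
  exact (Set.finite_range _).subset h1

theorem pow_root_one {B : Type*} [CommGroup B] {h : ℕ} {tau : ℕ → (Fin h → ℤ_[ℓ]) → B}
    (H : TBs ℓ h tau) (n : ℕ) (x : Fin h → ℤ_[ℓ]) : tau n x ^ ℓ ^ n = 1 := by
  rw [LimData.pow_root (fun n => tau n x) (fun n => H.step n x) n]
  exact (H.ker 0 x).2 ⟨x, by rw [pow_zero, one_smul]⟩

/-- Matrices which agree on the torsion. -/
theorem TS.mat_congr {B : Type*} [CommGroup B] {h : ℕ} {tau : ℕ → (Fin h → ℤ_[ℓ]) → B}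
    (H : TS ℓ h tau) {n : ℕ} {X Y : Matrix (Fin h) (Fin h) ℤ_[ℓ]}
    (hXY : ∀ x, tau n (X.mulVec x) = tau n (Y.mulVec x)) :
    ∃ W : Matrix (Fin h) (Fin h) ℤ_[ℓ], X = Y + (ℓ : ℤ_[ℓ]) ^ n • W := by
  have h1 : ∀ j : Fin h, ∃ w : Fin h → ℤ_[ℓ],
      X.mulVec (Pi.single j 1) - Y.mulVec (Pi.single j 1) = (ℓ : ℤ_[ℓ]) ^ n • w := by
    intro j
    apply (H.ker n _).1
    have h2 := H.add n (X.mulVec (Pi.single j 1) - Y.mulVec (Pi.single j 1))
      (Y.mulVec (Pi.single j 1))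
    rw [sub_add_cancel, hXY] at h2
    exact mul_eq_right.1 h2.symm
  choose w hw using h1
  refine ⟨Matrix.of fun i j => w j i, ?_⟩
  ext i j
  have h3 := congrFun (hw j) i
  rw [Matrix.mulVec_single_one, Matrix.mulVec_single_one] at h3
  rw [Matrix.add_apply, Matrix.smul_apply, Matrix.of_apply]
  exact sub_eq_iff_eq_add'.1 h3

/-- Restriction of an equivariant endomorphism. -/
theorem exists_restrict (v : ClassGroup (WB T) →* ClassGroup (WB T))
    (hv : ∀ (σ : Ω ≃ₐ[A] Ω) (D : ClassGroup (WB T)),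
      v (act (⟨TA, h⟩ : Tk A T) σ D) = act (⟨TA, h⟩ : Tk A T) σ (v D)) :
    ∃ v' : ClassGroup (WB TA) →* ClassGroup (WB TA),
      ∀ D, bcl (algebraMap A Ω) h (v' D) = v (bcl (algebraMap A Ω) h D) := by
  have hT : Tk A T := ⟨TA, h⟩
  have h1 : ∀ D : ClassGroup (WB TA), ∃ D', bcl (algebraMap A Ω) h D' =
      v (bcl (algebraMap A Ω) h D) := by
    intro D
    refine mem_range_bcl_of_fixed h _ fun σ => ?_
    rw [← hv]
    congr 1
    rw [act_eq_iff]
    intro c hc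
    have h2 := (mem_JK_iff hT _ _).1 ((mem_range_bcl h _).2 ⟨D, rfl⟩) hc
    obtain ⟨a, rfl⟩ := IntermediateField.mem_bot.1 h2
    exact σ.commutes a
  choose f hf using h1
  refine ⟨⟨⟨f, ?_⟩, fun x y => ?_⟩, hf⟩
  · apply bcl_inj h
    rw [hf, map_one, map_one]
  · apply bcl_inj h
    change bcl _ h (f (x * y)) = bcl _ h (f x * f y)
    rw [hf, map_mul, map_mul, map_mul, hf, hf]

include h in
/-- **(e3)** Tate's theorem and semisimplicity in matrix form. -/
theorem semi_tate (hTA : Tk k TA)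
    (htors : ∀ n (D : ClassGroup (WB T)), D ^ ℓ ^ n = 1 → D ∈ JK (T := T) (kb k Ω))
    (hTate : ∀ (k' : Type) [Field k'] [Finite k'] [Algebra k k'] [Algebra k' Ω]
      [IsScalarTower k k' Ω] (hT' : Tk k' T), Tate k' T hT' ℓ ∧ Semi k' T hT' ℓ)
    {hh : ℕ} {tau : ℕ → (Fin hh → ℤ_[ℓ]) → ClassGroup (WB TA)} (H : TBs ℓ hh tau)
    (γ : A ≃ₐ[k] A) (hγ : ∀ x : A, IsAlgebraic k x → γ x = x ^ Nat.card k)
    {R : Matrix (Fin hh) (Fin hh) ℤ_[ℓ]} (hR : ∀ n x, act hTA γ (tau n x) = tau n (R.mulVec x)) :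
    (∀ r > 0, ∀ Φ : Matrix (Fin hh) (Fin hh) ℤ_[ℓ],
      (R ^ r * Φ - Φ * R ^ r) * R ^ r = R ^ r * (R ^ r * Φ - Φ * R ^ r) →
        R ^ r * Φ = Φ * R ^ r) ∧
    (∀ r > 0, ∀ Φ : Matrix (Fin hh) (Fin hh) ℤ_[ℓ], R ^ r * Φ = Φ * R ^ r →
      ∃ (s m : ℕ) (v : Fin m → ClassGroup (WB TA) →* ClassGroup (WB TA))
        (X : Fin m → Matrix (Fin hh) (Fin hh) ℤ_[ℓ]) (a : Fin m → ℤ_[ℓ]),
        (∀ i (g : A ≃ₐ[k] A), (∀ x : A, IsAlgebraic k x → g x = x) → ∀ y,
          v i (act hTA g y) = act hTA g (v i y)) ∧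
        (∀ i n x, v i (tau n x) = tau n ((X i).mulVec x)) ∧
        (ℓ : ℤ_[ℓ]) ^ s • Φ = ∑ i, a i • X i) := by
  have key : ∀ r > 0, ∃ (k' : Type) (_ : Field k') (_ : Finite k') (_ : Algebra k k')
      (_ : Algebra k' A) (_ : Algebra k' Ω) (_ : IsScalarTower k k' A) (_ : IsScalarTower k' A Ω)
      (_ : IsScalarTower k k' Ω) (hTA' : Tk k' TA) (hT' : Tk k' T) (σ : Ω ≃ₐ[k'] Ω),
      IsFrob k' σ ∧ (∀ n x, act hT' σ (bcl (algebraMap A Ω) h (tau n x)) =
        bcl (algebraMap A Ω) h (tau n ((R ^ r).mulVec x))) := by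
    intro r hr
    obtain ⟨k', i1, i2, i3, i4, i5, hcard⟩ := exists_kr k A hr
    let i6 : Algebra k' Ω := ((algebraMap A Ω).comp (algebraMap k' A)).toAlgebra
    have i7 : IsScalarTower k' A Ω := IsScalarTower.of_algebraMap_eq fun _ => rfl
    have i8 : IsScalarTower k k' Ω := IsScalarTower.of_algebraMap_eq fun c => by
      rw [IsScalarTower.algebraMap_apply k A Ω, IsScalarTower.algebraMap_apply k k' A]
      rfl
    have hTA' : Tk k' TA := by
      obtain ⟨T₀, hT₀⟩ := hTA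
      refine ⟨T₀.map (algebraMap k k'), ?_⟩
      rw [Tab.map_map, ← IsScalarTower.algebraMap_eq, hT₀]
    have hT' : Tk k' T := by
      obtain ⟨T₀, hT₀⟩ := hTA'
      refine ⟨T₀, ?_⟩
      rw [IsScalarTower.algebraMap_eq k' A Ω, ← Tab.map_map, hT₀, h]
    have hpow : ∀ (m : ℕ) (x : A), IsAlgebraic k x → (γ ^ m) x = x ^ Nat.card k ^ m := by
      intro m
      induction m with
      | zero => intro x _; rw [pow_zero, pow_zero, pow_one]; rfl
      | succ m ih =>
        intro x hx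
        rw [pow_succ', AlgEquiv.mul_apply, ih x hx, map_pow, hγ x hx, ← pow_mul, ← pow_succ']
    have halg : Algebra.IsAlgebraic k k' := Algebra.IsAlgebraic.of_finite k k'
    have hfix : ∀ c : k', (γ ^ r) (algebraMap k' A c) = algebraMap k' A c := by
      intro c
      rw [hpow r _ ((halg.isAlgebraic c).algebraMap), ← hcard, ← map_pow]
      congr 1
      have := Fintype.ofFinite k'
      rw [Nat.card_eq_fintype_card, FiniteField.pow_card]
    obtain ⟨σ, hσ⟩ := exists_extk (k := k') (Ω := Ω) ((γ ^ r : A ≃ₐ[k] A) : A ≃+* A) hfix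
    refine ⟨k', i1, i2, i3, i4, i6, i5, i7, i8, hTA', hT', σ, ?_, ?_⟩
    · intro x hx
      obtain ⟨a, rfl⟩ := IntermediateField.mem_bot.1 (kb_sub (k := k') (A := A) hx)
      have h1 : IsAlgebraic k' a := (isAlgebraic_algebraMap_iff (algebraMap A Ω).injective).1 hx
      have h2 : IsAlgebraic k a := h1.restrictScalars k
      rw [hσ, hcard, ← map_pow]
      congr 1
      exact hpow r a h2
    · intro n x
      have h1 : ∀ (m : ℕ) (x : Fin hh → ℤ_[ℓ]), act hTA (γ ^ m) (tau n x) =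
          tau n ((R ^ m).mulVec x) := by
        intro m
        induction m with
        | zero => intro x; rw [pow_zero, pow_zero, act_one, Matrix.one_mulVec]
        | succ m ih =>
          intro x
          rw [pow_succ, act_mul, hR, ih, Matrix.mulVec_mulVec, ← pow_succ]
      rw [← h1]
      exact (bcl_clm h (σ : Ω ≃+* Ω) ((γ ^ r : A ≃ₐ[k] A) : A ≃+* A) hσ (hT'.map σ)
        (hTA.map (γ ^ r)) (tau n x)).symm
  have H' := tb_bcl (k := k) h htors H
  constructor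
  · intro r hr Φ hΦ
    obtain ⟨k', i1, i2, i3, i4, i6, i5, i7, i8, hTA', hT', σ, hσ, hact⟩ := key r hr
    exact (hTate k' hT').2 hh _ H' σ hσ (R ^ r) hact Φ hΦ
  · intro r hr Φ hΦ
    obtain ⟨k', i1, i2, i3, i4, i6, i5, i7, i8, hTA', hT', σ, hσ, hact⟩ := key r hr
    have hkb : kb k Ω ⊆ kb k' Ω := fun x hx => hx.tower_top k'
    have hcomm : Comm k' hT' (fun n x => bcl (algebraMap A Ω) h (tau n x)) Φ := by
      intro σ' R' hR'
      rw [← sub_eq_zero]
      apply mat_eq_zero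
      intro n
      have H'' : TBs ℓ hh (fun n x => bcl (algebraMap A Ω) h (tau n x)) :=
        ⟨⟨H'.add, H'.step, H'.ker⟩, H'.sur⟩
      obtain ⟨m, hm⟩ := pro_of hT' _ (H''.finite n)
        (fun D hD => JK_mono hkb (htors n D hD)) hσ σ'
      have h1 : ∀ (m : ℕ) (x : Fin hh → ℤ_[ℓ]), act hT' (σ ^ m) (bcl (algebraMap A Ω) h (tau n x)) =
          bcl (algebraMap A Ω) h (tau n (((R ^ r) ^ m).mulVec x)) := by
        intro m
        induction m with
        | zero => intro x; rw [pow_zero, pow_zero, act_one, Matrix.one_mulVec]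
        | succ m ih =>
          intro x
          rw [pow_succ, act_mul, hact, ih, Matrix.mulVec_mulVec, ← pow_succ]
      obtain ⟨W, hW⟩ := TS.mat_congr H''.toTS (n := n) (X := R') (Y := (R ^ r) ^ m) fun x => by
        have h3 := hR' n x
        rw [hm _ (pow_root_one H'' n x)] at h3
        exact h3.symm.trans (h1 m x)
      refine ⟨Φ * W - W * Φ, ?_⟩
      have h2 : (R ^ r) ^ m * Φ = Φ * (R ^ r) ^ m :=
        (Commute.pow_left (show Commute (R ^ r) Φ from hΦ) m).eq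
      rw [hW, Matrix.mul_add, Matrix.add_mul, h2, Matrix.mul_smul, Matrix.smul_mul, smul_sub]
      abel
    obtain ⟨s, m, v, X, a, hv, hvt, hsum⟩ := (hTate k' hT').1 hh _ H' Φ hcomm
    have hvA : ∀ i, ∀ (σ : Ω ≃ₐ[A] Ω) (D : ClassGroup (WB T)),
        v i (act (⟨TA, h⟩ : Tk A T) σ D) = act (⟨TA, h⟩ : Tk A T) σ (v i D) := fun i σ D =>
      (hv i).equ (σ.restrictScalars k') D
    choose v' hv' using fun i => exists_restrict h (v i) (hvA i)
    refine ⟨s, m, v', X, a, fun i g hg y => ?_, fun i n x => ?_, hsum⟩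
    · have halg : Algebra.IsAlgebraic k k' := Algebra.IsAlgebraic.of_finite k k'
      obtain ⟨τ, hτ⟩ := exists_extk (k := k') (Ω := Ω) (g : A ≃+* A) fun c =>
        hg _ ((halg.isAlgebraic c).algebraMap)
      have hb : ∀ D, bcl (algebraMap A Ω) h (act hTA g D) = act hT' τ (bcl (algebraMap A Ω) h D) :=
        fun D => bcl_clm h (τ : Ω ≃+* Ω) (g : A ≃+* A) hτ (hT'.map τ) (hTA.map g) D
      apply bcl_inj h
      rw [hv', hb, (hv i).equ, hb, hv']
    · apply bcl_inj h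
      rw [hv', hvt]

end

end Pool.Agent.TIFB
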