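import Pool.Agent.TIFB.Mat

/-!
# [TIF] LIM: the endgame of LINK

`C` is the group of divisor classes, `N` the geometric Galois group, `z n` the compatible system of
roots of the class of the point `Q`, `δ` its Kummer cocycle with values in the Tate module.
-/

set_option autoImplicit false
set_option linter.unusedSectionVars false

namespace Pool.Agent.TIFB

open Pool.Agent.TIFA

variable {C G : Type*} [CommGroup C] [Group G] {ℓ : ℕ} [Fact ℓ.Prime] {h : ℕ}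

/-- The data of the endgame. -/
structure LimData (ℓ : ℕ) [Fact ℓ.Prime] (h : ℕ) (N N' : Subgroup G) (ca : G → C →* C)
    (tau : ℕ → (Fin h → ℤ_[ℓ]) → C) (z : ℕ → C) (δ : G → Fin h → ℤ_[ℓ]) : Prop where
  le : N ≤ N'
  norm : ∀ γ ∈ N', ∀ s ∈ N, γ⁻¹ * s * γ ∈ N
  ca_one : ∀ y, ca 1 y = y
  ca_mul : ∀ σ ∈ N', ∀ τ ∈ N', ∀ y, ca (σ * τ) y = ca σ (ca τ y)
  tb : TBs ℓ h tau
  div : ∀ D : C, ∃ E, E ^ ℓ = D
  trv : ∀ s ∈ N, ∀ n x, ca s (tau n x) = tau n x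
  zs : ∀ n, z (n + 1) ^ ℓ = z n
  z0 : ∀ γ ∈ N', ca γ (z 0) = z 0
  zδ : ∀ n, ∀ s ∈ N, ca s (z n) = z n * tau n (δ s)
  inj : ∀ n (Φ : Matrix (Fin h) (Fin h) ℤ_[ℓ]), (∀ s ∈ N, tau n (Φ.mulVec (δ s)) = 1) →
    ∃ Φ', Φ = (ℓ : ℤ_[ℓ]) ^ n • Φ'
  k0 : ∀ n y, (∀ s ∈ N, ∃ x, ca s y = y * tau n x) →
    ∃ Φ : Matrix (Fin h) (Fin h) ℤ_[ℓ], ∀ s ∈ N, ca s y = y * tau n (Φ.mulVec (δ s))

namespace LimData

variable {N N' : Subgroup G} {ca : G → C →* C} {tau : ℕ → (Fin h → ℤ_[ℓ]) → C} {z : ℕ → C}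
  {δ : G → Fin h → ℤ_[ℓ]}

theorem tau_congr (D : LimData ℓ h N N' ca tau z δ) {n : ℕ} {x y : Fin h → ℤ_[ℓ]}
    (hxy : tau n x = tau n y) : ∃ w, x = y + (ℓ : ℤ_[ℓ]) ^ n • w := by
  have h1 : tau n (x - y) = 1 := by
    have h2 := D.tb.add n (x - y) y
    rw [sub_add_cancel, hxy] at h2
    exact mul_eq_right.1 h2.symm
  obtain ⟨w, hw⟩ := (D.tb.ker n _).1 h1
  exact ⟨w, by rw [← hw]; abel⟩

theorem tau_add_pow (D : LimData ℓ h N N' ca tau z δ) (n : ℕ) (x w : Fin h → ℤ_[ℓ]) :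
    tau n (x + (ℓ : ℤ_[ℓ]) ^ n • w) = tau n x := by
  rw [D.tb.add, (D.tb.ker n _).2 ⟨w, rfl⟩, mul_one]

theorem tau_mulVec_congr (D : LimData ℓ h N N' ca tau z δ) (Φ : Matrix (Fin h) (Fin h) ℤ_[ℓ])
    {n : ℕ} {x y : Fin h → ℤ_[ℓ]} (hxy : tau n x = tau n y) :
    tau n (Φ.mulVec x) = tau n (Φ.mulVec y) := by
  obtain ⟨w, rfl⟩ := D.tau_congr hxy
  rw [Matrix.mulVec_add, Matrix.mulVec_smul, D.tau_add_pow]

theorem tau_neg (D : LimData ℓ h N N' ca tau z δ) (n : ℕ) (x : Fin h → ℤ_[ℓ]) :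
    tau n (-x) = (tau n x)⁻¹ := by
  have h1 := D.tb.add n (-x) x
  rw [neg_add_cancel, D.tb.zero] at h1
  exact eq_inv_of_mul_eq_one_left h1.symm

theorem tau_sub (D : LimData ℓ h N N' ca tau z δ) (n : ℕ) (x y : Fin h → ℤ_[ℓ]) :
    tau n (x - y) = tau n x * (tau n y)⁻¹ := by
  rw [sub_eq_add_neg, D.tb.add, D.tau_neg]

/-- The classes of endomorphisms whose cocycle is trivial modulo `ℓ ^ n`. -/
def E (D : LimData ℓ h N N' ca tau z δ) (n : ℕ) :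
    Submodule ℤ_[ℓ] (Matrix (Fin h) (Fin h) ℤ_[ℓ]) where
  carrier := {Φ | ∃ y : C, ∀ s ∈ N, ca s y = y * tau n (Φ.mulVec (δ s))}
  add_mem' := by
    rintro Φ Ψ ⟨y, hy⟩ ⟨w, hw⟩
    refine ⟨y * w, fun s hs => ?_⟩
    rw [map_mul, hy s hs, hw s hs, Matrix.add_mulVec, D.tb.add]
    exact mul_mul_mul_comm _ _ _ _
  zero_mem' := ⟨1, fun s _ => by rw [map_one, Matrix.zero_mulVec, D.tb.zero, mul_one]⟩
  smul_mem' := by
    rintro c Φ ⟨y, hy⟩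
    obtain ⟨b, hb⟩ : ∃ b : ℤ_[ℓ], c - c.appr n = (ℓ : ℤ_[ℓ]) ^ n * b := by
      have := PadicInt.appr_spec n c
      rwa [Ideal.mem_span_singleton] at this
    refine ⟨y ^ c.appr n, fun s hs => ?_⟩
    have h1 : (c • Φ).mulVec (δ s) = c.appr n • Φ.mulVec (δ s) +
        (ℓ : ℤ_[ℓ]) ^ n • (b • Φ.mulVec (δ s)) := by
      rw [smul_smul, ← hb, sub_smul, Matrix.smul_mulVec, Nat.cast_smul_eq_nsmul]
      abel
    rw [map_pow, hy s hs, h1, D.tau_add_pow, D.tb.nsmul, mul_pow]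

theorem mem_E (D : LimData ℓ h N N' ca tau z δ) {n : ℕ} {Φ : Matrix (Fin h) (Fin h) ℤ_[ℓ]} :
    Φ ∈ D.E n ↔ ∃ y : C, ∀ s ∈ N, ca s y = y * tau n (Φ.mulVec (δ s)) := Iff.rfl

theorem pow_mem_E (D : LimData ℓ h N N' ca tau z δ) (n : ℕ)
    (Φ : Matrix (Fin h) (Fin h) ℤ_[ℓ]) : (ℓ : ℤ_[ℓ]) ^ n • Φ ∈ D.E n := by
  refine ⟨1, fun s _ => ?_⟩
  rw [map_one, one_mul, Matrix.smul_mulVec, (D.tb.ker n _).2 ⟨_, rfl⟩]

theorem E_anti (D : LimData ℓ h N N' ca tau z δ) (n : ℕ) : D.E (n + 1) ≤ D.E n := by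
  rintro Φ ⟨y, hy⟩
  refine ⟨y ^ ℓ, fun s hs => ?_⟩
  rw [map_pow, hy s hs, mul_pow, D.tb.step]

theorem E_le (D : LimData ℓ h N N' ca tau z δ) {n m : ℕ} (hnm : n ≤ m) : D.E m ≤ D.E n := by
  induction hnm with
  | refl => exact le_rfl
  | step _ ih => exact (D.E_anti _).trans ih

/-- A natural number prime to `ℓ` can be cancelled. -/
theorem E_cancel (D : LimData ℓ h N N' ca tau z δ) {n m : ℕ} (hm : ¬ ℓ ∣ m)
    {Φ : Matrix (Fin h) (Fin h) ℤ_[ℓ]} (hΦ : m • Φ ∈ D.E n) : Φ ∈ D.E n := by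
  have h1 : IsUnit ((m : ℤ_[ℓ])) := by
    rw [PadicInt.isUnit_iff]
    by_contra hcon
    have h2 : ‖((m : ℤ) : ℤ_[ℓ])‖ < 1 := by
      rw [Int.cast_natCast]
      exact lt_of_le_of_ne (PadicInt.norm_le_one _) hcon
    rw [PadicInt.norm_int_lt_one_iff_dvd] at h2
    exact hm (by exact_mod_cast h2)
  obtain ⟨u, hu⟩ := h1
  have h3 := (D.E n).smul_mem ((u⁻¹ : ℤ_[ℓ]ˣ) : ℤ_[ℓ]) hΦ
  rwa [← Nat.cast_smul_eq_nsmul ℤ_[ℓ], smul_smul, ← hu, Units.inv_mul, one_smul] at h3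

/-! ### Conjugation -/

theorem pow_root (y : ℕ → C) (hy : ∀ n, y (n + 1) ^ ℓ = y n) (n : ℕ) : y n ^ ℓ ^ n = y 0 := by
  induction n with
  | zero => rw [pow_zero, pow_one]
  | succ n ih => rw [pow_succ', pow_mul, hy, ih]

theorem tau_zero' (D : LimData ℓ h N N' ca tau z δ) (x : Fin h → ℤ_[ℓ]) : tau 0 x = 1 :=
  (D.tb.ker 0 x).2 ⟨x, by rw [pow_zero, one_smul]⟩

theorem tau_pow (D : LimData ℓ h N N' ca tau z δ) (n : ℕ) (x : Fin h → ℤ_[ℓ]) :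
    tau n x ^ ℓ ^ n = 1 := by
  rw [pow_root (fun n => tau n x) (fun n => D.tb.step n x) n, D.tau_zero']

theorem root_tau (D : LimData ℓ h N N' ca tau z δ) {y : ℕ → C} (hy : ∀ n, y (n + 1) ^ ℓ = y n)
    {γ : G} (h0 : ca γ (y 0) = y 0) (n : ℕ) : ∃ x, ca γ (y n) = y n * tau n x := by
  obtain ⟨x, hx⟩ := D.tb.sur n (ca γ (y n) / y n) (by
    rw [div_pow, ← map_pow, pow_root y hy, h0, div_self'])
  exact ⟨x, by rw [hx, mul_div_cancel]⟩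

theorem conj (D : LimData ℓ h N N' ca tau z δ) {γ : G} (hγ : γ ∈ N')
    {R : Matrix (Fin h) (Fin h) ℤ_[ℓ]} (hR : ∀ n x, ca γ (tau n x) = tau n (R.mulVec x)) {n : ℕ}
    {a : G → Fin h → ℤ_[ℓ]} {y : C} (hy : ∀ s ∈ N, ca s y = y * tau n (a s))
    (ht : ∃ t, ca γ y = y * tau n t) : ∀ s ∈ N, tau n (R.mulVec (a (γ⁻¹ * s * γ))) = tau n (a s) := by
  intro s hs
  obtain ⟨t, ht⟩ := ht
  have hs' := D.norm γ hγ s hs
  have h1 : ca s (ca γ y) = ca γ (ca (γ⁻¹ * s * γ) y) := by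
    rw [← D.ca_mul s (D.le hs) γ hγ, ← D.ca_mul γ hγ _ (D.le hs')]
    congr 2
    group
  rw [hy _ hs', ht, map_mul, map_mul, hR, D.trv s hs, hy s hs, ht] at h1
  have h2 : (y * tau n t) * tau n (a s) = (y * tau n t) * tau n (R.mulVec (a (γ⁻¹ * s * γ))) := by
    rw [← h1]; exact mul_right_comm _ _ _
  exact (mul_left_cancel h2).symm

theorem conjz (D : LimData ℓ h N N' ca tau z δ) {γ : G} (hγ : γ ∈ N')
    {R : Matrix (Fin h) (Fin h) ℤ_[ℓ]} (hR : ∀ n x, ca γ (tau n x) = tau n (R.mulVec x)) (n : ℕ) :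
    ∀ s ∈ N, tau n (R.mulVec (δ (γ⁻¹ * s * γ))) = tau n (δ s) :=
  D.conj hγ hR (D.zδ n) (D.root_tau D.zs (D.z0 γ hγ) n)

/-- Conjugation of a class. -/
theorem conj_mem_E (D : LimData ℓ h N N' ca tau z δ) {γ : G} (hγ : γ ∈ N')
    {R R' : Matrix (Fin h) (Fin h) ℤ_[ℓ]} (hR : ∀ n x, ca γ (tau n x) = tau n (R.mulVec x))
    (hRR : R' * R = 1) {n : ℕ} {Φ : Matrix (Fin h) (Fin h) ℤ_[ℓ]} (hΦ : Φ ∈ D.E n) :
    R * Φ * R' ∈ D.E n := by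
  obtain ⟨y, hy⟩ := hΦ
  refine ⟨ca γ y, fun s hs => ?_⟩
  have hs' := D.norm γ hγ s hs
  have h1 : ca s (ca γ y) = ca γ (ca (γ⁻¹ * s * γ) y) := by
    rw [← D.ca_mul s (D.le hs) γ hγ, ← D.ca_mul γ hγ _ (D.le hs')]
    congr 2
    group
  have h2 := D.tau_mulVec_congr R' (D.conjz hγ hR n s hs)
  rw [Matrix.mulVec_mulVec, hRR, Matrix.one_mulVec] at h2
  have h3 := D.tau_mulVec_congr (R * Φ) h2
  rw [h1, hy _ hs', map_mul, hR, Matrix.mulVec_mulVec, h3, Matrix.mulVec_mulVec]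

end LimData

/-! ### Matrices -/

theorem mat_eq_zero {Φ : Matrix (Fin h) (Fin h) ℤ_[ℓ]}
    (hΦ : ∀ n : ℕ, ∃ Φ' : Matrix (Fin h) (Fin h) ℤ_[ℓ], Φ = (ℓ : ℤ_[ℓ]) ^ n • Φ') : Φ = 0 := by
  ext i j
  rw [Matrix.zero_apply]
  apply eq_of_toZModPow
  intro n
  obtain ⟨Φ', hΦ'⟩ := hΦ n
  rw [hΦ', Matrix.smul_apply, smul_eq_mul, map_mul, map_pow, map_natCast, map_zero]
  have : ((ℓ : ZMod (ℓ ^ n))) ^ n = 0 := by
    rw [← Nat.cast_pow, ZMod.natCast_self]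
  rw [this, zero_mul]

theorem pow_smul_mem_nhds (n : ℕ) :
    {Φ : Matrix (Fin h) (Fin h) ℤ_[ℓ] | ∃ Φ' : Matrix (Fin h) (Fin h) ℤ_[ℓ],
      Φ = (ℓ : ℤ_[ℓ]) ^ n • Φ'} ∈ nhds (0 : Matrix (Fin h) (Fin h) ℤ_[ℓ]) := by
  have hl : (0 : ℝ) < (ℓ : ℝ) := by exact_mod_cast (Fact.out : ℓ.Prime).pos
  have h1 : ∀ i j, {Φ : Matrix (Fin h) (Fin h) ℤ_[ℓ] | ‖Φ i j‖ < (ℓ : ℝ) ^ (-(n : ℤ))} ∈
      nhds (0 : Matrix (Fin h) (Fin h) ℤ_[ℓ]) := by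
    intro i j
    apply IsOpen.mem_nhds
    · exact isOpen_lt (((continuous_apply j).comp (continuous_apply i)).norm) continuous_const
    · show ‖(0 : ℤ_[ℓ])‖ < _
      rw [norm_zero]
      positivity
  have h2 : (⋂ i, ⋂ j, {Φ : Matrix (Fin h) (Fin h) ℤ_[ℓ] | ‖Φ i j‖ < (ℓ : ℝ) ^ (-(n : ℤ))}) ∈
      nhds (0 : Matrix (Fin h) (Fin h) ℤ_[ℓ]) :=
    Filter.iInter_mem.2 fun i => Filter.iInter_mem.2 fun j => h1 i j
  refine Filter.mem_of_superset h2 fun Φ hΦ => ?_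
  simp only [Set.mem_iInter, Set.mem_ofPred_eq] at hΦ
  have h3 : ∀ i j, ∃ b : ℤ_[ℓ], Φ i j = (ℓ : ℤ_[ℓ]) ^ n * b := by
    intro i j
    have := (PadicInt.norm_le_pow_iff_mem_span_pow (Φ i j) n).1 (hΦ i j).le
    rwa [Ideal.mem_span_singleton] at this
  choose b hb using h3
  exact ⟨Matrix.of b, by ext i j; rw [hb]; rfl⟩

instance matCompact : CompactSpace (Matrix (Fin h) (Fin h) ℤ_[ℓ]) :=
  inferInstanceAs (CompactSpace (Fin h → Fin h → ℤ_[ℓ]))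

theorem exists_lim (F : ℕ → Submodule ℤ_[ℓ] (Matrix (Fin h) (Fin h) ℤ_[ℓ]))
    (hF : ∀ n Φ, (ℓ : ℤ_[ℓ]) ^ n • Φ ∈ F n) (hanti : ∀ n, F (n + 1) ≤ F n)
    (Φ : ℕ → Matrix (Fin h) (Fin h) ℤ_[ℓ]) (hΦ : ∀ n, Φ (n + 1) - Φ n ∈ F n) :
    ∃ Ψ, ∀ n, Ψ - Φ n ∈ F n := by
  have hclosed : ∀ n, IsClosed (F n : Set (Matrix (Fin h) (Fin h) ℤ_[ℓ])) := by
    intro n
    have h1 : IsOpen ((F n).toAddSubgroup : Set (Matrix (Fin h) (Fin h) ℤ_[ℓ])) := by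
      apply AddSubgroup.isOpen_of_mem_nhds (g := 0)
      refine Filter.mem_of_superset (pow_smul_mem_nhds n) ?_
      rintro _ ⟨Φ', rfl⟩
      exact hF n Φ'
    exact AddSubgroup.isClosed_of_isOpen _ h1
  have hK : (⋂ n, {Ψ : Matrix (Fin h) (Fin h) ℤ_[ℓ] | Ψ - Φ n ∈ F n}).Nonempty := by
    apply IsCompact.nonempty_iInter_of_sequence_nonempty_isCompact_isClosed
    · intro n Ψ hΨ
      have h1 := (F n).add_mem (hanti n hΨ) (hΦ n)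
      rwa [sub_add_sub_cancel] at h1
    · intro n
      exact ⟨Φ n, by rw [Set.mem_ofPred_eq, sub_self]; exact (F n).zero_mem⟩
    · apply IsClosed.isCompact
      exact (hclosed 0).preimage (continuous_id.sub continuous_const)
    · intro n
      exact (hclosed n).preimage (continuous_id.sub continuous_const)
  obtain ⟨Ψ, hΨ⟩ := hK
  exact ⟨Ψ, fun n => Set.mem_iInter.1 hΨ n⟩

/-- The submodule `ℓ ^ n M`. -/
def powSub (n : ℕ) : Submodule ℤ_[ℓ] (Matrix (Fin h) (Fin h) ℤ_[ℓ]) where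
  carrier := {Φ | ∃ Φ', Φ = (ℓ : ℤ_[ℓ]) ^ n • Φ'}
  add_mem' := by
    rintro _ _ ⟨a, rfl⟩ ⟨b, rfl⟩
    exact ⟨a + b, by rw [smul_add]⟩
  zero_mem' := ⟨0, by rw [smul_zero]⟩
  smul_mem' := by
    rintro c _ ⟨a, rfl⟩
    exact ⟨c • a, smul_comm _ _ _⟩

theorem mem_powSub {n : ℕ} {Φ : Matrix (Fin h) (Fin h) ℤ_[ℓ]} :
    Φ ∈ powSub n ↔ ∃ Φ', Φ = (ℓ : ℤ_[ℓ]) ^ n • Φ' := Iff.rfl

/-- A submodule is closed. -/
theorem mem_of_mem_sup (S : Submodule ℤ_[ℓ] (Matrix (Fin h) (Fin h) ℤ_[ℓ]))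
    {Φ : Matrix (Fin h) (Fin h) ℤ_[ℓ]} (hΦ : ∀ n : ℕ, ∃ Ψ ∈ S, Φ - Ψ ∈ powSub n) : Φ ∈ S := by
  have hI : (Ideal.span {(ℓ : ℤ_[ℓ])} : Ideal ℤ_[ℓ]) ≠ ⊤ := by
    rw [← PadicInt.maximalIdeal_eq_span_p]
    exact (IsLocalRing.maximalIdeal.isMaximal _).ne_top
  have h1 := Ideal.iInf_pow_smul_eq_bot_of_isLocalRing
    (M := (Matrix (Fin h) (Fin h) ℤ_[ℓ]) ⧸ S) (Ideal.span {(ℓ : ℤ_[ℓ])}) hI
  have h2 : S.mkQ Φ ∈ (⨅ i : ℕ, (Ideal.span {(ℓ : ℤ_[ℓ])}) ^ i • ⊤ :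
      Submodule ℤ_[ℓ] ((Matrix (Fin h) (Fin h) ℤ_[ℓ]) ⧸ S)) := by
    rw [Submodule.mem_iInf]
    intro n
    obtain ⟨Ψ, hΨ, Φ', hΦ'⟩ := hΦ n
    have h3 : S.mkQ Φ = (ℓ : ℤ_[ℓ]) ^ n • S.mkQ Φ' := by
      rw [← map_smul, ← hΦ', map_sub, (by rw [Submodule.mkQ_apply, Submodule.Quotient.mk_eq_zero]; exact hΨ : S.mkQ Ψ = 0), sub_zero]
    rw [h3]
    exact Submodule.smul_mem_smul (Ideal.pow_mem_pow (Ideal.mem_span_singleton_self _) n)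
      Submodule.mem_top
  rw [h1, Submodule.mem_bot, Submodule.mkQ_apply, Submodule.Quotient.mk_eq_zero] at h2
  exact h2

namespace LimData

variable {N N' : Subgroup G} {ca : G → C →* C} {tau : ℕ → (Fin h → ℤ_[ℓ]) → C} {z : ℕ → C}
  {δ : G → Fin h → ℤ_[ℓ]}

/-- All the conditions. -/
noncomputable def EE (D : LimData ℓ h N N' ca tau z δ) : Submodule ℤ_[ℓ] (Matrix (Fin h) (Fin h) ℤ_[ℓ]) :=
  ⨅ n, D.E n

theorem mem_EE (D : LimData ℓ h N N' ca tau z δ) {Φ : Matrix (Fin h) (Fin h) ℤ_[ℓ]} :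
    Φ ∈ D.EE ↔ ∀ n, Φ ∈ D.E n := Submodule.mem_iInf _

/-- The classes coming from a compatible system. -/
def Y (_D : LimData ℓ h N N' ca tau z δ) : Set (Matrix (Fin h) (Fin h) ℤ_[ℓ]) :=
  {Ψ | ∃ y : ℕ → C, (∀ n, y (n + 1) ^ ℓ = y n) ∧
    ∀ n, ∀ s ∈ N, ca s (y n) = y n * tau n (Ψ.mulVec (δ s))}

theorem Y_commute (D : LimData ℓ h N N' ca tau z δ) {g : G} (hg : g ∈ N')
    {R : Matrix (Fin h) (Fin h) ℤ_[ℓ]} (hR : ∀ n x, ca g (tau n x) = tau n (R.mulVec x))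
    {Ψ : Matrix (Fin h) (Fin h) ℤ_[ℓ]} {y : ℕ → C} (hys : ∀ n, y (n + 1) ^ ℓ = y n)
    (hy : ∀ n, ∀ s ∈ N, ca s (y n) = y n * tau n (Ψ.mulVec (δ s))) (h0 : ca g (y 0) = y 0) :
    R * Ψ = Ψ * R := by
  rw [← sub_eq_zero]
  apply mat_eq_zero
  intro n
  apply D.inj n
  intro s hs
  have hs' : g * s * g⁻¹ ∈ N := by
    have := D.norm g⁻¹ (N'.inv_mem hg) s hs
    rwa [inv_inv] at this
  have e : g⁻¹ * (g * s * g⁻¹) * g = s := by group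
  have h1 := D.conj hg hR (hy n) (D.root_tau hys h0 n) _ hs'
  have h2 := D.conjz hg hR n _ hs'
  rw [e] at h1 h2
  have h3 := D.tau_mulVec_congr Ψ h2
  rw [Matrix.sub_mulVec, D.tau_sub, ← Matrix.mulVec_mulVec, h1, ← Matrix.mulVec_mulVec, h3,
    mul_inv_cancel]

theorem ca_pow (D : LimData ℓ h N N' ca tau z δ) {g : G} (hg : g ∈ N')
    {R : Matrix (Fin h) (Fin h) ℤ_[ℓ]} (hR : ∀ n x, ca g (tau n x) = tau n (R.mulVec x)) (r : ℕ) :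
    ∀ n x, ca (g ^ r) (tau n x) = tau n ((R ^ r).mulVec x) := by
  induction r with
  | zero => intro n x; rw [pow_zero, pow_zero, D.ca_one, Matrix.one_mulVec]
  | succ r ih =>
    intro n x
    rw [pow_succ, D.ca_mul _ (N'.pow_mem hg r) _ hg, hR, ih, Matrix.mulVec_mulVec, ← pow_succ]

theorem exists_Y (D : LimData ℓ h N N' ca tau z δ) {Ψ : Matrix (Fin h) (Fin h) ℤ_[ℓ]} {n : ℕ}
    (hΨ : Ψ ∈ D.E n) : ∃ Ψ' ∈ D.Y, Ψ - Ψ' ∈ powSub n := by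
  obtain ⟨w, hw⟩ := hΨ
  choose rt hrt using D.div
  let y : ℕ → C := fun m => if m ≤ n then w ^ ℓ ^ (n - m) else rt^[m - n] w
  have hyn : y n = w := by
    show (if n ≤ n then _ else _) = w
    rw [if_pos le_rfl, Nat.sub_self, pow_zero, pow_one]
  have hys : ∀ m, y (m + 1) ^ ℓ = y m := by
    intro m
    rcases lt_trichotomy m n with hm | hm | hm
    · show (if m + 1 ≤ n then _ else _) ^ ℓ = (if m ≤ n then _ else _)
      rw [if_pos (Nat.succ_le_of_lt hm), if_pos hm.le, ← pow_mul, ← pow_succ]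
      congr 2
      omega
    · subst hm
      rw [hyn]
      show (if m + 1 ≤ m then _ else _) ^ ℓ = _
      rw [if_neg (by omega), (by omega : m + 1 - m = 1), Function.iterate_one, hrt]
    · show (if m + 1 ≤ n then _ else _) ^ ℓ = (if m ≤ n then _ else _)
      rw [if_neg (by omega), if_neg (by omega), (by omega : m + 1 - n = (m - n) + 1),
        Function.iterate_succ_apply', hrt]
  have h0 : ∀ s ∈ N, ca s (y 0) = y 0 := by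
    intro s hs
    rw [← pow_root y hys n, hyn, map_pow, hw s hs, mul_pow, D.tau_pow, mul_one]
  choose Φ hΦ using fun m => D.k0 m (y m) fun s hs => D.root_tau hys (h0 s hs) m
  have hstep : ∀ m, Φ (m + 1) - Φ m ∈ powSub m := by
    intro m
    apply D.inj m
    intro s hs
    have h1 := hΦ (m + 1) s hs
    have h2 : ca s (y m) = y m * tau m ((Φ (m + 1)).mulVec (δ s)) := by
      rw [← hys m, map_pow, h1, mul_pow, D.tb.step]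
    rw [hΦ m s hs] at h2
    rw [Matrix.sub_mulVec, D.tau_sub, ← mul_left_cancel h2, mul_inv_cancel]
  obtain ⟨Ψ', hΨ'⟩ := exists_lim (fun m => powSub m) (fun n Φ => ⟨Φ, rfl⟩)
    (by rintro n _ ⟨a, rfl⟩; exact ⟨(ℓ : ℤ_[ℓ]) • a, by rw [smul_smul, ← pow_succ]⟩) Φ hstep
  have hmod : ∀ m s, tau m (Ψ'.mulVec (δ s)) = tau m ((Φ m).mulVec (δ s)) := by
    intro m s
    obtain ⟨a, ha⟩ := hΨ' m
    rw [sub_eq_iff_eq_add] at ha
    rw [ha, Matrix.add_mulVec, add_comm, Matrix.smul_mulVec, D.tau_add_pow]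
  refine ⟨Ψ', ⟨y, hys, fun m s hs => by rw [hmod, hΦ m s hs]⟩, ?_⟩
  apply D.inj n
  intro s hs
  have h1 := hΦ n s hs
  rw [hyn, hw s hs] at h1
  rw [Matrix.sub_mulVec, D.tau_sub, hmod, mul_left_cancel h1, mul_inv_cancel]

theorem EE_le_span (D : LimData ℓ h N N' ca tau z δ) : D.EE ≤ Submodule.span ℤ_[ℓ] D.Y := by
  intro Φ hΦ
  apply mem_of_mem_sup
  intro n
  obtain ⟨Ψ', h1, h2⟩ := D.exists_Y (D.mem_EE.1 hΦ n)
  exact ⟨Ψ', Submodule.subset_span h1, h2⟩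

/-- A power of the Frobenius commutes with everything. -/
theorem exists_commute (D : LimData ℓ h N N' ca tau z δ) {g : G} (hg : g ∈ N')
    {R : Matrix (Fin h) (Fin h) ℤ_[ℓ]} (hR : ∀ n x, ca g (tau n x) = tau n (R.mulVec x))
    (hfix : ∀ y, (∀ s ∈ N, ca s y = y) → ∃ r > 0, ca (g ^ r) y = y) :
    ∃ r > 0, ∀ Φ ∈ D.EE, R ^ r * Φ = Φ * R ^ r := by
  have hY : ∀ Ψ ∈ D.Y, ∃ r > 0, R ^ r * Ψ = Ψ * R ^ r := by
    rintro Ψ ⟨y, hys, hy⟩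
    obtain ⟨r, hr, hr'⟩ := hfix (y 0) fun s hs => by
      rw [hy 0 s hs, D.tau_zero', mul_one]
    exact ⟨r, hr, D.Y_commute (N'.pow_mem hg r) (D.ca_pow hg hR r) hys hy hr'⟩
  obtain ⟨S, hSY, hS⟩ := (Submodule.fg_span_iff_fg_span_finset_subset D.Y).1
    (IsNoetherian.noetherian (Submodule.span ℤ_[ℓ] D.Y))
  have hfin : ∀ S : Finset (Matrix (Fin h) (Fin h) ℤ_[ℓ]), (↑S : Set _) ⊆ D.Y →
      ∃ r > 0, ∀ Ψ ∈ S, R ^ r * Ψ = Ψ * R ^ r := by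
    classical
    intro S
    induction S using Finset.induction_on with
    | empty => intro _; exact ⟨1, one_pos, by simp⟩
    | insert a S ha ih =>
      intro hS
      obtain ⟨r, hr, hr'⟩ := ih fun x hx => hS (Finset.mem_insert_of_mem hx)
      obtain ⟨t, ht, ht'⟩ := hY a (hS (Finset.mem_insert_self _ _))
      refine ⟨r * t, Nat.mul_pos hr ht, fun Ψ hΨ => ?_⟩
      rcases Finset.mem_insert.1 hΨ with rfl | hΨ
      · rw [mul_comm r t, pow_mul]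
        exact (Commute.pow_left (show Commute (R ^ t) Ψ from ht') r).eq
      · rw [pow_mul]
        exact (Commute.pow_left (show Commute (R ^ r) Ψ from hr' Ψ hΨ) t).eq
  obtain ⟨r, hr, hr'⟩ := hfin S hSY
  refine ⟨r, hr, fun Φ hΦ => ?_⟩
  have h1 := D.EE_le_span hΦ
  rw [hS] at h1
  refine Submodule.span_induction (p := fun Φ _ => R ^ r * Φ = Φ * R ^ r) (fun x hx => hr' x hx)
    (by rw [mul_zero, zero_mul]) (fun x y _ _ hx hy => by rw [mul_add, add_mul, hx, hy])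
    (fun a x _ hx => by rw [Matrix.mul_smul, Matrix.smul_mul, hx]) h1

/-- The endgame. -/
theorem lim (D : LimData ℓ h N N' ca tau z δ) {g : G} (hg : g ∈ N')
    {R R' : Matrix (Fin h) (Fin h) ℤ_[ℓ]} (hRR : R' * R = 1)
    (hR : ∀ n x, ca g (tau n x) = tau n (R.mulVec x))
    (hfix : ∀ y, (∀ s ∈ N, ca s y = y) → ∃ r > 0, ca (g ^ r) y = y)
    (semi : ∀ r > 0, ∀ Φ : Matrix (Fin h) (Fin h) ℤ_[ℓ],
      (R ^ r * Φ - Φ * R ^ r) * R ^ r = R ^ r * (R ^ r * Φ - Φ * R ^ r) →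
        R ^ r * Φ = Φ * R ^ r)
    (tate : ∀ r > 0, ∀ Φ : Matrix (Fin h) (Fin h) ℤ_[ℓ], R ^ r * Φ = Φ * R ^ r →
      ∃ (s m : ℕ) (v : Fin m → C →* C) (A : Fin m → Matrix (Fin h) (Fin h) ℤ_[ℓ])
        (a : Fin m → ℤ_[ℓ]), (∀ i, ∀ σ ∈ N, ∀ y, v i (ca σ y) = ca σ (v i y)) ∧
        (∀ i n x, v i (tau n x) = tau n ((A i).mulVec x)) ∧
        (ℓ : ℤ_[ℓ]) ^ s • Φ = ∑ i, a i • A i)
    (Q : ℕ → (G → C) → Prop)
    (Q0 : ∀ n b b', (∀ s ∈ N, b s = b' s) → Q n b → Q n b')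
    (Q1 : ∀ n, ∃ Φ : Matrix (Fin h) (Fin h) ℤ_[ℓ], Q n fun s => tau n (Φ.mulVec (δ s)))
    (Q2 : ∀ n b b', Q n b → Q n b' → ∃ m : ℕ, ¬ ℓ ∣ m ∧ ∃ y : C, ∀ s ∈ N,
      (b s / b' s) ^ m * y = ca s y)
    (Q3 : ∀ n b, Q (n + 1) b → Q n fun s => b s ^ ℓ)
    (Q4 : ∀ n b, Q n b → Q n fun s => ca g (b (g⁻¹ * s * g))) :
    ∀ n, ∃ y : C, Q n fun s => ca s y / y := by
  classical
  choose Φ hΦ using Q1
  -- the difference of two classes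
  have hdiff : ∀ n (A B : Matrix (Fin h) (Fin h) ℤ_[ℓ]), Q n (fun s => tau n (A.mulVec (δ s))) →
      Q n (fun s => tau n (B.mulVec (δ s))) → A - B ∈ D.E n := by
    intro n A B hA hB
    obtain ⟨m, hm, y, hy⟩ := Q2 n _ _ hA hB
    apply D.E_cancel hm
    refine ⟨y, fun s hs => ?_⟩
    rw [← hy s hs, Matrix.smul_mulVec, D.tb.nsmul, Matrix.sub_mulVec, D.tau_sub, div_eq_mul_inv]
    exact mul_comm _ _
  obtain ⟨Ψ, hΨ⟩ := exists_lim D.E D.pow_mem_E D.E_anti Φ fun n => by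
    apply hdiff n _ _ _ (hΦ n)
    apply Q0 n _ _ _ (Q3 n _ (hΦ (n + 1)))
    intro s _
    exact D.tb.step n _
  obtain ⟨r, hr, hcomm⟩ := D.exists_commute hg hR hfix
  have hRR' : R * R' = 1 := mul_eq_one_comm.1 hRR
  have hSS : R' ^ r * R ^ r = 1 := by
    have : Commute R' R := by show R' * R = R * R'; rw [hRR, hRR']
    rw [← this.mul_pow, hRR, one_pow]
  have hS := D.ca_pow hg hR r
  have hγ : g ^ r ∈ N' := N'.pow_mem hg r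
  have Q4' : ∀ (k n : ℕ) (b : G → C), Q n b →
      Q n fun s => ca (g ^ k) (b ((g ^ k)⁻¹ * s * g ^ k)) := by
    intro k
    induction k with
    | zero =>
      intro n b hb
      apply Q0 n _ _ _ hb
      intro s _
      rw [pow_zero, D.ca_one]
      congr 1
      group
    | succ k ih =>
      intro n b hb
      apply Q0 n _ _ _ (Q4 n _ (ih n b hb))
      intro s _
      rw [pow_succ' g k, D.ca_mul _ hg _ (N'.pow_mem hg k), mul_inv_rev]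
      congr 3
      group
  have hε : R ^ r * Ψ * R' ^ r - Ψ ∈ D.EE := by
    rw [mem_EE]
    intro n
    have h1 : Q n fun s => tau n ((R ^ r * Φ n * R' ^ r).mulVec (δ s)) := by
      apply Q0 n _ _ _ (Q4' r n _ (hΦ n))
      intro s hs
      have h2 := D.tau_mulVec_congr (R' ^ r) (D.conjz hγ hS n s hs)
      rw [Matrix.mulVec_mulVec, hSS, Matrix.one_mulVec] at h2
      have h3 := D.tau_mulVec_congr (R ^ r * Φ n) h2
      rw [hS, Matrix.mulVec_mulVec, h3, Matrix.mulVec_mulVec]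
    have h4 := hdiff n _ _ h1 (hΦ n)
    have h5 := D.conj_mem_E hγ hS hSS (hΨ n)
    have h6 : R ^ r * Ψ * R' ^ r - Ψ = R ^ r * (Ψ - Φ n) * R' ^ r +
        (R ^ r * Φ n * R' ^ r - Φ n) - (Ψ - Φ n) := by
      rw [mul_sub, sub_mul]; abel
    rw [h6]
    exact (D.E n).sub_mem ((D.E n).add_mem h5 h4) (hΨ n)
  have hcε := hcomm _ hε
  have hκ : R ^ r * Ψ - Ψ * R ^ r = (R ^ r * Ψ * R' ^ r - Ψ) * R ^ r := by
    rw [sub_mul, mul_assoc _ (R' ^ r), hSS, mul_one]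
  have hc : R ^ r * Ψ = Ψ * R ^ r := by
    apply semi r hr
    rw [hκ, ← mul_assoc, hcε]
  obtain ⟨s, m, v, A, a, hv, hvt, hsum⟩ := tate r hr Ψ hc
  have hmem : (ℓ : ℤ_[ℓ]) ^ s • Ψ ∈ D.EE := by
    rw [hsum]
    refine Submodule.sum_mem _ fun i _ => Submodule.smul_mem _ _ ?_
    rw [mem_EE]
    intro n
    refine ⟨v i (z n), fun σ hσ => ?_⟩
    rw [← hv i σ hσ, D.zδ n σ hσ, map_mul, hvt]
  intro n
  have Q3' : ∀ (k n : ℕ) (b : G → C), Q (n + k) b → Q n fun s => b s ^ ℓ ^ k := by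
    intro k
    induction k with
    | zero =>
      intro n b hb
      apply Q0 n _ _ _ hb
      intro s _
      rw [pow_zero, pow_one]
    | succ k ih =>
      intro n b hb
      apply Q0 n _ _ _ (ih n _ (Q3 (n + k) b hb))
      intro s _
      rw [← pow_mul, ← pow_succ']
  have h1 := Q3' s n _ (hΦ (n + s))
  have h2 : (ℓ : ℤ_[ℓ]) ^ s • Φ (n + s) ∈ D.E (n + s) := by
    have h3 : (ℓ : ℤ_[ℓ]) ^ s • Φ (n + s) = (ℓ : ℤ_[ℓ]) ^ s • Ψ -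
        (ℓ : ℤ_[ℓ]) ^ s • (Ψ - Φ (n + s)) := by
      rw [smul_sub]; abel
    rw [h3]
    exact (D.E _).sub_mem (D.mem_EE.1 hmem _) ((D.E _).smul_mem _ (hΨ _))
  obtain ⟨y, hy⟩ := h2
  refine ⟨y, Q0 n _ _ (fun σ hσ => ?_) h1⟩
  rw [hy σ hσ, mul_div_cancel_left, Matrix.smul_mulVec, ← Nat.cast_pow, Nat.cast_smul_eq_nsmul,
    D.tb.nsmul]

end LimData

end Pool.Agent.TIFB
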