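import Pool.Agent.TIFB.Gram

/-!
# [TIF] TORS-7: matrices of endomorphisms; roots of unity
-/

set_option autoImplicit false
set_option linter.unusedSectionVars false

namespace Pool.Agent.TIFB

open Pool.Agent.TIFA

variable {J : Type*} [CommGroup J] {ℓ : ℕ} [Fact ℓ.Prime] {h : ℕ}

theorem matZ_unique {tau : ℕ → (Fin h → ℤ_[ℓ]) → J} (H : TS ℓ h tau)
    {A B : Matrix (Fin h) (Fin h) ℤ_[ℓ]} (hAB : ∀ n x, tau n (A.mulVec x) = tau n (B.mulVec x)) :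
    A = B := by
  ext i j
  apply eq_of_toZModPow
  intro n
  have h1 := hAB n (Pi.single j 1)
  have h2 : tau n (A.mulVec (Pi.single j 1) - B.mulVec (Pi.single j 1)) = 1 := by
    have h3 := H.add n (A.mulVec (Pi.single j 1) - B.mulVec (Pi.single j 1))
      (B.mulVec (Pi.single j 1))
    rw [sub_add_cancel, h1] at h3
    exact (mul_eq_right.1 h3.symm)
  obtain ⟨y, hy⟩ := (H.ker n _).1 h2
  have h4 := congrFun hy i
  rw [Pi.sub_apply, Matrix.mulVec_single_one, Matrix.mulVec_single_one] at h4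
  have h5 : A i j - B i j = (ℓ : ℤ_[ℓ]) ^ n * y i := h4
  rw [← sub_eq_zero, ← map_sub, ← RingHom.mem_ker, PadicInt.ker_toZModPow,
    Ideal.mem_span_singleton]
  exact ⟨y i, h5⟩

/-- **MAT.** -/
theorem exists_matZ {J' : Type*} [CommGroup J'] {h' : ℕ} {tau : ℕ → (Fin h → ℤ_[ℓ]) → J}
    (H : TBs ℓ h tau) {tau' : ℕ → (Fin h' → ℤ_[ℓ]) → J'} (H' : TBs ℓ h' tau') (v : J →* J') :
    ∃ A : Matrix (Fin h') (Fin h) ℤ_[ℓ], ∀ n x, v (tau n x) = tau' n (A.mulVec x) := by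
  obtain ⟨m, hm, hv⟩ := (betaS_isPar H).exists_mat (betaS_isPar H') v.toAdditive
  refine ⟨fun i j => ⟨m i j, hm i j⟩, fun n x => ?_⟩
  have h1 := hv (fun i => ((ℓ : ℚ_[ℓ]) ^ n)⁻¹ * (x i : ℚ_[ℓ]))
  have h2 : m.mulVec (fun i => ((ℓ : ℚ_[ℓ]) ^ n)⁻¹ * (x i : ℚ_[ℓ])) = fun i =>
      ((ℓ : ℚ_[ℓ]) ^ n)⁻¹ * (((Matrix.mulVec (fun i j => (⟨m i j, hm i j⟩ : ℤ_[ℓ])) x i) : ℤ_[ℓ]) :
        ℚ_[ℓ]) :=
    qM_mulVec (fun i j => (⟨m i j, hm i j⟩ : ℤ_[ℓ])) x (((ℓ : ℚ_[ℓ]) ^ n)⁻¹)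
  rw [h2, betaS_tau, betaS_tau] at h1
  exact h1

/-- Compatible primitive roots of unity. -/
theorem exists_zeta {Ω : Type*} [Field Ω] [IsAlgClosed Ω] (hℓ : (ℓ : Ω) ≠ 0) :
    ∃ zeta : ℕ → Ω, (∀ n, zeta (n + 1) ^ ℓ = zeta n) ∧
      ∀ n, IsPrimitiveRoot (zeta n) (ℓ ^ n) := by
  have hp := (Fact.out : ℓ.Prime)
  have hNZ : NeZero (ℓ : Ω) := ⟨hℓ⟩
  obtain ⟨b, hb⟩ : ∃ b : Ω, IsPrimitiveRoot b ℓ := by
    have := HasEnoughRootsOfUnity.exists_primitiveRoot Ω ℓ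
    exact this
  have hb0 : b ≠ 0 := hb.ne_zero hp.ne_zero
  obtain ⟨t, ht0, ht1, hts⟩ := exists_sys (J := Ωˣ) (ℓ := ℓ) (fun D => by
    obtain ⟨z, hz⟩ := IsAlgClosed.exists_pow_nat_eq (D : Ω) hp.pos
    have hz0 : z ≠ 0 := by
      rintro rfl
      rw [zero_pow hp.ne_zero] at hz
      exact D.ne_zero hz.symm
    exact ⟨Units.mk0 z hz0, Units.ext (by rw [Units.val_pow_eq_pow_val, Units.val_mk0, hz])⟩)
    (Units.mk0 b hb0) (Units.ext (by rw [Units.val_pow_eq_pow_val, Units.val_mk0, hb.pow_eq_one,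
      Units.val_one]))
  have htk : ∀ n k, t (n + k) ^ ℓ ^ k = t n := by
    intro n k
    induction k with
    | zero => rw [pow_zero, pow_one, add_zero]
    | succ k ih => rw [← add_assoc, pow_succ', pow_mul, hts, ih]
  refine ⟨fun n => (t n : Ω), fun n => ?_, fun n => ?_⟩
  · rw [← Units.val_pow_eq_pow_val, hts]
  · rw [IsPrimitiveRoot.coe_units_iff]
    cases n with
    | zero => rw [ht0, pow_zero]; exact IsPrimitiveRoot.one
    | succ n =>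
      rw [← orderOf_eq_prime_pow (p := ℓ) (n := n) (x := t (n + 1))]
      · exact IsPrimitiveRoot.orderOf _
      · rw [add_comm, htk, ht1]
        intro h1
        have h2 : b = 1 := congrArg Units.val h1
        rw [h2] at hb
        have h3 := hb.unique (IsPrimitiveRoot.one : IsPrimitiveRoot (1 : Ω) 1)
        exact hp.one_lt.ne' h3
      · have := htk 0 (n + 1)
        rw [zero_add, ht0] at this
        exact this

end Pool.Agent.TIFB
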