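import Pool.Agent.TIFA.Dic

/-!
# [TIF] Compatible systems of homomorphisms and parametrizations of the torsion
-/

set_option autoImplicit false
set_option linter.unusedSectionVars false

namespace Pool.Agent.TIFB

open Pool.Agent.TIFA

/-- A compatible system of homomorphisms `ℤ_ℓ ^ h → B` with kernels `ℓ ^ n ℤ_ℓ ^ h`. -/
structure TS {B : Type*} [CommGroup B] (ℓ : ℕ) [Fact ℓ.Prime] (h : ℕ)
    (tau : ℕ → (Fin h → ℤ_[ℓ]) → B) : Prop where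
  add : ∀ n x y, tau n (x + y) = tau n x * tau n y
  step : ∀ n x, tau (n + 1) x ^ ℓ = tau n x
  ker : ∀ n x, tau n x = 1 ↔ ∃ y, x = (ℓ : ℤ_[ℓ]) ^ n • y

/-- The image of `tau n` is the `ℓ ^ n`-torsion. -/
structure TBs {B : Type*} [CommGroup B] (ℓ : ℕ) [Fact ℓ.Prime] (h : ℕ)
    (tau : ℕ → (Fin h → ℤ_[ℓ]) → B) : Prop extends TS ℓ h tau where
  sur : ∀ n D, D ^ ℓ ^ n = 1 → ∃ x, tau n x = D

section beta

variable {B : Type*} [CommGroup B] {ℓ : ℕ} [Fact ℓ.Prime] {h : ℕ}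
  {tau : ℕ → (Fin h → ℤ_[ℓ]) → B}

theorem TS.zero (H : TS ℓ h tau) (n : ℕ) : tau n 0 = 1 :=
  (H.ker n 0).2 ⟨0, by rw [smul_zero]⟩

theorem TS.nsmul (H : TS ℓ h tau) (n m : ℕ) (x : Fin h → ℤ_[ℓ]) : tau n (m • x) = tau n x ^ m := by
  induction m with
  | zero => rw [zero_smul, pow_zero, H.zero]
  | succ m ih => rw [succ_nsmul, H.add, ih, pow_succ]

theorem TS.step' (H : TS ℓ h tau) (n : ℕ) (x : Fin h → ℤ_[ℓ]) :
    tau (n + 1) (ℓ • x) = tau n x := by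
  rw [H.nsmul, H.step]

theorem TS.stepk (H : TS ℓ h tau) (n k : ℕ) (x : Fin h → ℤ_[ℓ]) :
    tau (n + k) (ℓ ^ k • x) = tau n x := by
  induction k with
  | zero => rw [pow_zero, one_smul, add_zero]
  | succ k ih => rw [← add_assoc, pow_succ', mul_smul, H.step', ih]

open scoped Classical in
/-- The `ℓ`-adic integer `x`. -/
noncomputable def toI (x : ℚ_[ℓ]) : ℤ_[ℓ] := if hx : ‖x‖ ≤ 1 then ⟨x, hx⟩ else 0

theorem coe_toI {x : ℚ_[ℓ]} (hx : ‖x‖ ≤ 1) : ((toI x : ℤ_[ℓ]) : ℚ_[ℓ]) = x := by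
  rw [toI, dif_pos hx]

theorem coe_toI' {n : ℕ} {v : Fin h → ℚ_[ℓ]} (hv : IV ((ℓ : ℚ_[ℓ]) ^ n • v)) (i : Fin h) :
    ((toI ((ℓ : ℚ_[ℓ]) ^ n * v i) : ℤ_[ℓ]) : ℚ_[ℓ]) = (ℓ : ℚ_[ℓ]) ^ n * v i := coe_toI (hv i)

/-- Approximation of `β`. -/
noncomputable def bn (tau : ℕ → (Fin h → ℤ_[ℓ]) → B) (n : ℕ) (v : Fin h → ℚ_[ℓ]) :
    B := tau n fun i => toI ((ℓ : ℚ_[ℓ]) ^ n * v i)

theorem IV_mono {n k : ℕ} {v : Fin h → ℚ_[ℓ]} (hv : IV ((ℓ : ℚ_[ℓ]) ^ n • v)) :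
    IV ((ℓ : ℚ_[ℓ]) ^ (n + k) • v) := by
  rw [add_comm, pow_add, mul_smul]
  refine hv.smul ?_
  exact_mod_cast norm_natCast_le (ℓ := ℓ) (ℓ ^ k)

theorem exists_IV (v : Fin h → ℚ_[ℓ]) : ∃ n : ℕ, IV ((ℓ : ℚ_[ℓ]) ^ n • v) := by
  choose n hn using fun i => exists_pow_mul_le (ℓ := ℓ) (v i)
  refine ⟨∑ i, n i, fun i => ?_⟩
  obtain ⟨k, hk⟩ := Nat.exists_eq_add_of_le (Finset.single_le_sum (f := n)
    (fun _ _ => Nat.zero_le _) (Finset.mem_univ i))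
  rw [Pi.smul_apply, smul_eq_mul, hk, add_comm, pow_add, mul_assoc, norm_mul]
  refine mul_le_one₀ ?_ (norm_nonneg _) (hn i)
  exact_mod_cast norm_natCast_le (ℓ := ℓ) (ℓ ^ k)

theorem bn_stable (H : TS ℓ h tau) {n : ℕ} {v : Fin h → ℚ_[ℓ]} (hv : IV ((ℓ : ℚ_[ℓ]) ^ n • v))
    (k : ℕ) : bn tau (n + k) v = bn tau n v := by
  rw [bn, bn, ← H.stepk n k]
  congr 1
  funext i
  apply Subtype.val_injective
  change ((toI ((ℓ : ℚ_[ℓ]) ^ (n + k) * v i) : ℤ_[ℓ]) : ℚ_[ℓ])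
    = ((ℓ ^ k • toI ((ℓ : ℚ_[ℓ]) ^ n * v i) : ℤ_[ℓ]) : ℚ_[ℓ])
  rw [nsmul_eq_mul, PadicInt.coe_mul, coe_toI' (IV_mono (k := k) hv) i, coe_toI' hv i]
  push_cast
  ring

theorem bn_eq (H : TS ℓ h tau) {n m : ℕ} {v : Fin h → ℚ_[ℓ]} (hv : IV ((ℓ : ℚ_[ℓ]) ^ n • v))
    (hv' : IV ((ℓ : ℚ_[ℓ]) ^ m • v)) : bn tau n v = bn tau m v := by
  rw [← bn_stable H hv m, ← bn_stable H hv' n, add_comm]

theorem bn_add (H : TS ℓ h tau) {n : ℕ} {v w : Fin h → ℚ_[ℓ]} (hv : IV ((ℓ : ℚ_[ℓ]) ^ n • v))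
    (hw : IV ((ℓ : ℚ_[ℓ]) ^ n • w)) : bn tau n (v + w) = bn tau n v * bn tau n w := by
  rw [bn, bn, bn, ← H.add]
  congr 1
  funext i
  apply Subtype.val_injective
  change ((toI ((ℓ : ℚ_[ℓ]) ^ n * (v i + w i)) : ℤ_[ℓ]) : ℚ_[ℓ])
    = ((toI ((ℓ : ℚ_[ℓ]) ^ n * v i) + toI ((ℓ : ℚ_[ℓ]) ^ n * w i) : ℤ_[ℓ]) : ℚ_[ℓ])
  have hvw : ‖(ℓ : ℚ_[ℓ]) ^ n * (v i + w i)‖ ≤ 1 := by
    have := (hv.add hw) i
    rwa [← smul_add] at this
  rw [PadicInt.coe_add, coe_toI hvw, coe_toI' hv i, coe_toI' hw i, mul_add]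

theorem bn_tau (n : ℕ) (x : Fin h → ℤ_[ℓ]) :
    bn tau n (fun i => ((ℓ : ℚ_[ℓ]) ^ n)⁻¹ * (x i : ℚ_[ℓ])) = tau n x := by
  rw [bn]
  congr 1
  funext i
  apply Subtype.val_injective
  rw [mul_inv_cancel_left₀ (pow_ne_zero _ ell_ne)]
  exact coe_toI (x i).2

/-- The homomorphism `ℚ_ℓ ^ h → B`. -/
noncomputable def betaS (H : TS ℓ h tau) : (Fin h → ℚ_[ℓ]) →+ Additive B where
  toFun v := Additive.ofMul (bn tau (exists_IV v).choose v)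
  map_zero' := by
    have h1 : bn tau (exists_IV (0 : Fin h → ℚ_[ℓ])).choose (0 : Fin h → ℚ_[ℓ]) = 1 := by
      rw [bn]
      have : (fun i : Fin h => toI ((ℓ : ℚ_[ℓ]) ^ (exists_IV (0 : Fin h → ℚ_[ℓ])).choose *
          (0 : Fin h → ℚ_[ℓ]) i)) = 0 := by
        funext i
        apply Subtype.val_injective
        rw [Pi.zero_apply, mul_zero]
        exact coe_toI (by rw [norm_zero]; exact zero_le_one)
      rw [this, H.zero]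
    rw [h1, ofMul_one]
  map_add' v w := by
    obtain ⟨n, hn⟩ := exists_IV v
    obtain ⟨m, hm⟩ := exists_IV w
    have hv := IV_mono (k := m) hn
    have hw := IV_mono (k := n) hm
    rw [add_comm m n] at hw
    have hvw : IV ((ℓ : ℚ_[ℓ]) ^ (n + m) • (v + w)) := by rw [smul_add]; exact hv.add hw
    rw [bn_eq H (exists_IV v).choose_spec hv, bn_eq H (exists_IV w).choose_spec hw,
      bn_eq H (exists_IV (v + w)).choose_spec hvw, bn_add H hv hw, ofMul_mul]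

theorem betaS_eq (H : TS ℓ h tau) {n : ℕ} {v : Fin h → ℚ_[ℓ]}
    (hv : IV ((ℓ : ℚ_[ℓ]) ^ n • v)) : betaS H v = Additive.ofMul (bn tau n v) := by
  change Additive.ofMul (bn tau (exists_IV v).choose v) = _
  rw [bn_eq H (exists_IV v).choose_spec hv]

theorem betaS_tau (H : TS ℓ h tau) (n : ℕ) (x : Fin h → ℤ_[ℓ]) :
    betaS H (fun i => ((ℓ : ℚ_[ℓ]) ^ n)⁻¹ * (x i : ℚ_[ℓ])) = Additive.ofMul (tau n x) := by
  rw [betaS_eq H (n := n), bn_tau]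
  intro i
  rw [Pi.smul_apply, smul_eq_mul, mul_inv_cancel_left₀ (pow_ne_zero _ ell_ne)]
  exact (x i).2

theorem betaS_ker (H : TS ℓ h tau) (v : Fin h → ℚ_[ℓ]) : betaS H v = 0 ↔ IV v := by
  obtain ⟨n, hn⟩ := exists_IV v
  rw [betaS_eq H hn]
  constructor
  · intro h0
    obtain ⟨y, hy⟩ := (H.ker n _).1 (Additive.ofMul.injective h0 : bn tau n v = 1)
    intro i
    have h1 := congrArg (fun z : ℤ_[ℓ] => (z : ℚ_[ℓ])) (congrFun hy i)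
    simp only [Pi.smul_apply, smul_eq_mul, PadicInt.coe_mul, PadicInt.coe_pow,
      PadicInt.coe_natCast] at h1
    rw [coe_toI' hn i] at h1
    have h2 := mul_left_cancel₀ (pow_ne_zero n (ell_ne (ℓ := ℓ))) h1
    rw [h2]
    exact (y i).2
  · intro hv
    have h1 : tau n (fun i => toI ((ℓ : ℚ_[ℓ]) ^ n * v i)) = 1 := by
      rw [H.ker]
      refine ⟨fun i => ⟨v i, hv i⟩, ?_⟩
      funext i
      apply Subtype.val_injective
      change ((toI ((ℓ : ℚ_[ℓ]) ^ n * v i) : ℤ_[ℓ]) : ℚ_[ℓ]) =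
        (((ℓ : ℤ_[ℓ]) ^ n * ⟨v i, hv i⟩ : ℤ_[ℓ]) : ℚ_[ℓ])
      rw [coe_toI' hn i, PadicInt.coe_mul, PadicInt.coe_pow, PadicInt.coe_natCast]
    rw [bn, h1, ofMul_one]

theorem betaS_isPar (H : TBs ℓ h tau) : IsPar (betaS H.toTS) := by
  constructor
  · exact betaS_ker H.toTS
  · intro x n hx
    obtain ⟨y, hy⟩ := H.sur n (Additive.toMul x) (by rw [← toMul_nsmul, hx, toMul_zero])
    exact ⟨_, by rw [betaS_tau, hy]; rfl⟩

end beta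

section mat

variable {ℓ : ℕ} [Fact ℓ.Prime] {h : ℕ}

/-- The matrix over `ℚ_ℓ`. -/
noncomputable def qM {m n : Type*} (M : Matrix m n ℤ_[ℓ]) : Matrix m n ℚ_[ℓ] :=
  M.map PadicInt.Coe.ringHom

theorem qM_inj {m n : Type*} {M N : Matrix m n ℤ_[ℓ]} (h : qM M = qM N) : M = N := by
  ext i j
  have h1 : (qM M) i j = (qM N) i j := by rw [h]
  exact Subtype.val_injective h1

theorem qM_mulVec {m n : Type*} [Fintype n] (M : Matrix m n ℤ_[ℓ]) (x : n → ℤ_[ℓ]) (c : ℚ_[ℓ]) :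
    (qM M).mulVec (fun i => c * (x i : ℚ_[ℓ])) = fun i => c * ((M.mulVec x i : ℤ_[ℓ]) : ℚ_[ℓ]) := by
  funext i
  rw [Matrix.mulVec, dotProduct, Matrix.mulVec, dotProduct]
  have h1 : ((∑ j, M i j * x j : ℤ_[ℓ]) : ℚ_[ℓ]) = ∑ j, ((M i j : ℤ_[ℓ]) : ℚ_[ℓ]) * (x j : ℚ_[ℓ]) := by
    rw [PadicInt.coe_sum]
    exact Finset.sum_congr rfl fun j _ => PadicInt.coe_mul _ _
  rw [h1, Finset.mul_sum]
  refine Finset.sum_congr rfl fun j _ => ?_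
  change ((M i j : ℤ_[ℓ]) : ℚ_[ℓ]) * (c * (x j : ℚ_[ℓ])) = _
  ring

theorem exists_qM {M : Matrix (Fin h) (Fin h) ℚ_[ℓ]} (hM : ∀ i j, ‖M i j‖ ≤ 1) :
    ∃ A : Matrix (Fin h) (Fin h) ℤ_[ℓ], qM A = M :=
  ⟨fun i j => ⟨M i j, hM i j⟩, rfl⟩

end mat

section chi

variable {Ω : Type*} [Field Ω] {ℓ : ℕ} [Fact ℓ.Prime] {zeta : ℕ → Ω}

/-- The root of unity as a unit. -/
noncomputable def zU (hz : ∀ n, IsPrimitiveRoot (zeta n) (ℓ ^ n)) (n : ℕ) : Ωˣ :=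
  ((hz n).isUnit (pow_ne_zero n (Fact.out : ℓ.Prime).ne_zero)).unit

theorem zU_val (hz : ∀ n, IsPrimitiveRoot (zeta n) (ℓ ^ n)) (n : ℕ) :
    ((zU hz n : Ωˣ) : Ω) = zeta n := rfl

theorem zU_prim (hz : ∀ n, IsPrimitiveRoot (zeta n) (ℓ ^ n)) (n : ℕ) :
    IsPrimitiveRoot (zU hz n) (ℓ ^ n) := by
  apply IsPrimitiveRoot.coe_units_iff.1
  exact hz n

theorem zU_step (hz : ∀ n, IsPrimitiveRoot (zeta n) (ℓ ^ n)) (hs : ∀ n, zeta (n + 1) ^ ℓ = zeta n)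
    (n : ℕ) : zU hz (n + 1) ^ ℓ = zU hz n := by
  apply Units.ext
  rw [Units.val_pow_eq_pow_val, zU_val, zU_val, hs]

theorem zU_ts (hz : ∀ n, IsPrimitiveRoot (zeta n) (ℓ ^ n)) (hs : ∀ n, zeta (n + 1) ^ ℓ = zeta n) :
    TS ℓ 1 (fun n (u : Fin 1 → ℤ_[ℓ]) => zU hz n ^ (PadicInt.toZModPow n (u 0)).val) := by
  have hpos : ∀ n, NeZero (ℓ ^ n) := fun n => ⟨pow_ne_zero n (Fact.out : ℓ.Prime).ne_zero⟩
  constructor
  · intro n x y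
    have := hpos n
    have h1 : (zU hz n) ^ (ℓ ^ n) = 1 := (zU_prim hz n).pow_eq_one
    rw [Pi.add_apply, map_add]
    have h2 := AddChar.map_add_eq_mul (AddChar.zmodChar (ℓ ^ n) h1)
      (PadicInt.toZModPow n (x 0)) (PadicInt.toZModPow n (y 0))
    rw [AddChar.zmodChar_apply, AddChar.zmodChar_apply, AddChar.zmodChar_apply] at h2
    exact h2
  · intro n x
    have := hpos n
    have := hpos (n + 1)
    have h1 := PadicInt.cast_toZModPow n (n + 1) (Nat.le_succ n) (x 0)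
    have h2 : (PadicInt.toZModPow n (x 0)).val = (PadicInt.toZModPow (n + 1) (x 0)).val % ℓ ^ n := by
      rw [← h1, ZMod.cast_eq_val, ZMod.val_natCast]
    rw [h2, ← pow_mul, mul_comm, pow_mul, zU_step hz hs]
    conv_lhs => rw [← Nat.mod_add_div (PadicInt.toZModPow (n + 1) (x 0)).val (ℓ ^ n)]
    rw [pow_add, pow_mul, (zU_prim hz n).pow_eq_one, one_pow, mul_one]
  · intro n x
    have := hpos n
    rw [(zU_prim hz n).pow_eq_one_iff_dvd]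
    constructor
    · intro h1
      have h2 : (PadicInt.toZModPow n (x 0)).val = 0 :=
        Nat.eq_zero_of_dvd_of_lt h1 (ZMod.val_lt _)
      rw [ZMod.val_eq_zero] at h2
      have h3 : x 0 ∈ RingHom.ker (PadicInt.toZModPow n : ℤ_[ℓ] →+* ZMod (ℓ ^ n)) := h2
      rw [PadicInt.ker_toZModPow, Ideal.mem_span_singleton] at h3
      obtain ⟨y, hy⟩ := h3
      refine ⟨fun _ => y, ?_⟩
      funext i
      rw [Subsingleton.elim i 0, hy]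
      rfl
    · rintro ⟨y, rfl⟩
      have h3 : ((ℓ : ℤ_[ℓ]) ^ n • y) 0 ∈
          RingHom.ker (PadicInt.toZModPow n : ℤ_[ℓ] →+* ZMod (ℓ ^ n)) := by
        rw [PadicInt.ker_toZModPow, Ideal.mem_span_singleton]
        exact ⟨y 0, rfl⟩
      rw [RingHom.mem_ker] at h3
      rw [h3, ZMod.val_zero]
      exact dvd_zero _

/-- The character of `ℚ_ℓ`. -/
noncomputable def chi (hz : ∀ n, IsPrimitiveRoot (zeta n) (ℓ ^ n))
    (hs : ∀ n, zeta (n + 1) ^ ℓ = zeta n) : Multiplicative ℚ_[ℓ] →* Ω where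
  toFun x := ((Additive.toMul (betaS (zU_ts hz hs) fun _ => Multiplicative.toAdd x) : Ωˣ) : Ω)
  map_one' := by
    have h1 : (fun _ : Fin 1 => Multiplicative.toAdd (1 : Multiplicative ℚ_[ℓ])) = 0 := rfl
    rw [h1, map_zero, toMul_zero, Units.val_one]
  map_mul' x y := by
    have h1 : (fun _ : Fin 1 => Multiplicative.toAdd (x * y)) =
      (fun _ => Multiplicative.toAdd x) + fun _ => Multiplicative.toAdd y := rfl
    rw [h1, map_add, toMul_add, Units.val_mul]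

theorem chi_eq_one (hz : ∀ n, IsPrimitiveRoot (zeta n) (ℓ ^ n))
    (hs : ∀ n, zeta (n + 1) ^ ℓ = zeta n) (x : ℚ_[ℓ]) :
    chi hz hs (Multiplicative.ofAdd x) = 1 ↔ ‖x‖ ≤ 1 := by
  change ((Additive.toMul (betaS (zU_ts hz hs) fun _ => x) : Ωˣ) : Ω) = 1 ↔ _
  rw [Units.val_eq_one]
  have h1 := betaS_ker (zU_ts hz hs) (fun _ => x)
  constructor
  · intro h
    exact h1.1 (Additive.toMul.injective h) 0
  · intro h
    have h2 := h1.2 fun _ => h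
    rw [h2]
    rfl

theorem chi_eq (hz : ∀ n, IsPrimitiveRoot (zeta n) (ℓ ^ n))
    (hs : ∀ n, zeta (n + 1) ^ ℓ = zeta n) (n : ℕ) (u : ℤ_[ℓ]) :
    chi hz hs (Multiplicative.ofAdd (((ℓ : ℚ_[ℓ]) ^ n)⁻¹ * (u : ℚ_[ℓ])))
      = zeta n ^ (PadicInt.toZModPow n u).val := by
  change ((Additive.toMul (betaS (zU_ts hz hs) fun _ => ((ℓ : ℚ_[ℓ]) ^ n)⁻¹ * (u : ℚ_[ℓ])) : Ωˣ) : Ω)
    = _
  have h1 := betaS_tau (zU_ts hz hs) n (fun _ => u)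
  rw [h1, toMul_ofMul, Units.val_pow_eq_pow_val, zU_val]

end chi

end Pool.Agent.TIFB
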