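import Pool.Agent.TIFB.Beta

/-!
# [TIF] TORS-7: bases of the Tate module

`J` is a commutative group which is `ℓ`-divisible with `ℓ ^ h` elements of order dividing `ℓ`. Then
there is a compatible system of homomorphisms `tau n : ℤ_ℓ ^ h → J` with kernel `ℓ ^ n` and image
`J[ℓ ^ n]`.
-/

set_option autoImplicit false
set_option linter.unusedSectionVars false

namespace Pool.Agent.TIFB

open Pool.Agent.TIFA

variable {J : Type*} [CommGroup J] {ℓ : ℕ} [Fact ℓ.Prime]

/-- Compatible systems of roots. -/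
theorem exists_sys (hdiv : ∀ D : J, ∃ E, E ^ ℓ = D) (b : J) (hb : b ^ ℓ = 1) :
    ∃ t : ℕ → J, t 0 = 1 ∧ t 1 = b ∧ ∀ n, t (n + 1) ^ ℓ = t n := by
  choose r hr using hdiv
  let t : ℕ → J := fun n => Nat.rec 1 (fun m y => Nat.rec b (fun _ _ => r y) m) n
  refine ⟨t, rfl, rfl, fun n => ?_⟩
  cases n with
  | zero => exact hb
  | succ m => exact hr _

/-- Exponents in `ℤ / ℓ ^ n`. -/
theorem pow_appr {t : J} {n : ℕ} (ht : t ^ ℓ ^ n = 1) (x y : ℤ_[ℓ]) :
    t ^ (x + y).appr n = t ^ x.appr n * t ^ y.appr n := by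
  rw [← pow_add]
  have h1 : (((x + y).appr n : ℕ) : ZMod (ℓ ^ n)) = ((x.appr n + y.appr n : ℕ) : ZMod (ℓ ^ n)) := by
    have e : ∀ z : ℤ_[ℓ], ((z.appr n : ℕ) : ZMod (ℓ ^ n)) = PadicInt.toZModPow n z := fun z => rfl
    rw [e, map_add, Nat.cast_add, e, e]
  rw [ZMod.natCast_eq_natCast_iff] at h1
  exact (pow_eq_pow_iff_modEq.2 (h1.of_dvd (orderOf_dvd_of_pow_eq_one ht)))

theorem exists_zbasis' {V : Type*} [AddCommGroup V] [Module (ZMod ℓ) V] {h : ℕ}
    (hcardV : Nat.card V = ℓ ^ h) : ∃ b : Fin h → V, (∀ x, ∃ a : Fin h → ℕ, x = ∑ i, a i • b i) ∧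
      (∀ a : Fin h → ℕ, ∑ i, a i • b i = 0 → ∀ i, ℓ ∣ a i) := by
  have hpos : 0 < ℓ ^ h := pow_pos (Fact.out : ℓ.Prime).pos h
  have hfin : Finite V := Nat.finite_of_card_ne_zero (by rw [hcardV]; exact hpos.ne')
  let _ := Fintype.ofFinite V
  have hrank : Module.finrank (ZMod ℓ) V = h := by
    have h1 := Module.card_eq_pow_finrank (K := ZMod ℓ) (V := V)
    rw [ZMod.card, Fintype.card_eq_nat_card, hcardV] at h1
    exact (Nat.pow_right_injective (Fact.out : ℓ.Prime).two_le h1).symm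
  let B := Module.finBasisOfFinrankEq (ZMod ℓ) V hrank
  refine ⟨B, fun x => ⟨fun i => (B.repr x i).val, ?_⟩, fun a ha i => ?_⟩
  · conv_lhs => rw [← B.sum_repr x]
    refine Finset.sum_congr rfl fun i _ => ?_
    rw [← Nat.cast_smul_eq_nsmul (ZMod ℓ), ZMod.natCast_val, ZMod.cast_id', id]
  · have h1 : ∑ i, (a i : ZMod ℓ) • B i = 0 := by
      rw [← ha]
      refine Finset.sum_congr rfl fun i _ => ?_
      rw [Nat.cast_smul_eq_nsmul]
    have h2 := Fintype.linearIndependent_iff.1 B.linearIndependent (fun i => (a i : ZMod ℓ)) h1 i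
    exact (ZMod.natCast_eq_zero_iff _ _).1 h2

theorem exists_zbasis {V : Type*} [AddCommGroup V] (hV : ∀ x : V, ℓ • x = 0) {h : ℕ}
    (hcardV : Nat.card V = ℓ ^ h) : ∃ b : Fin h → V, (∀ x, ∃ a : Fin h → ℕ, x = ∑ i, a i • b i) ∧
      (∀ a : Fin h → ℕ, ∑ i, a i • b i = 0 → ∀ i, ℓ ∣ a i) := by
  let _ : Module (ZMod ℓ) V := AddCommGroup.zmodModule hV
  exact exists_zbasis' hcardV

/-- A basis of the `ℓ`-torsion. -/
theorem exists_basis {h : ℕ} (hcard : Nat.card {D : J // D ^ ℓ = 1} = ℓ ^ h) :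
    ∃ b : Fin h → J, (∀ i, b i ^ ℓ = 1) ∧
      (∀ D : J, D ^ ℓ = 1 → ∃ a : Fin h → ℕ, D = ∏ i, b i ^ a i) ∧
      (∀ a : Fin h → ℕ, ∏ i, b i ^ a i = 1 → ∀ i, ℓ ∣ a i) := by
  classical
  let U : Subgroup J := (powMonoidHom ℓ : J →* J).ker
  have hU : ∀ D : J, D ∈ U ↔ D ^ ℓ = 1 := fun D => MonoidHom.mem_ker
  have hV : ∀ x : Additive U, ℓ • x = 0 := by
    intro x
    apply Additive.toMul.injective
    apply Subtype.val_injective
    exact (hU _).1 (Additive.toMul x).2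
  have e : {D : J // D ^ ℓ = 1} ≃ Additive U := (Equiv.subtypeEquivRight fun D => (hU D).symm)
  have hcardV : Nat.card (Additive U) = ℓ ^ h := by
    rw [← hcard]; exact (Nat.card_congr e).symm
  obtain ⟨B, hB1, hB2⟩ := exists_zbasis hV hcardV
  have hprod : ∀ a : Fin h → ℕ, ((Additive.toMul (∑ i, a i • B i) : U) : J)
      = ∏ i, ((Additive.toMul (B i) : U) : J) ^ a i := by
    intro a
    rw [toMul_sum, Subgroup.val_finsetProd]
    rfl
  refine ⟨fun i => ((Additive.toMul (B i) : U) : J), fun i => (hU _).1 (Additive.toMul (B i)).2,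
    fun D hD => ?_, fun a ha i => ?_⟩
  · obtain ⟨a, ha⟩ := hB1 (Additive.ofMul ⟨D, (hU D).2 hD⟩)
    refine ⟨a, ?_⟩
    rw [← hprod, ← ha]
    rfl
  · rw [← hprod] at ha
    refine hB2 a ?_ i
    apply Additive.toMul.injective
    apply Subtype.val_injective
    exact ha

/-- **BAS.** -/
theorem exists_TBs {h : ℕ} (hdiv : ∀ D : J, ∃ E, E ^ ℓ = D)
    (hcard : Nat.card {D : J // D ^ ℓ = 1} = ℓ ^ h) :
    ∃ tau : ℕ → (Fin h → ℤ_[ℓ]) → J, TBs ℓ h tau := by
  classical
  obtain ⟨b, hb1, hb2, hb3⟩ := exists_basis hcard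
  choose t ht0 ht1 hts using fun i => exists_sys hdiv (b i) (hb1 i)
  have htk : ∀ i n k, t i (n + k) ^ ℓ ^ k = t i n := by
    intro i n k
    induction k with
    | zero => rw [pow_zero, pow_one, add_zero]
    | succ k ih => rw [← add_assoc, pow_succ', pow_mul, hts, ih]
  have htn : ∀ i n, t i n ^ ℓ ^ n = 1 := by
    intro i n
    have := htk i 0 n
    rwa [zero_add, ht0] at this
  -- exponents depend only on the residue modulo `ℓ ^ n`
  have hmod : ∀ i n (x y : ℕ), (x : ZMod (ℓ ^ n)) = y → t i n ^ x = t i n ^ y := by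
    intro i n x y hxy
    rw [ZMod.natCast_eq_natCast_iff] at hxy
    exact pow_eq_pow_iff_modEq.2 (hxy.of_dvd (orderOf_dvd_of_pow_eq_one (htn i n)))
  have happr : ∀ (z : ℤ_[ℓ]) (n : ℕ), ((z.appr n : ℕ) : ZMod (ℓ ^ n)) = PadicInt.toZModPow n z :=
    fun z n => rfl
  -- the kernel, for natural exponents
  have hker : ∀ n (a : Fin h → ℕ), ∏ i, t i n ^ a i = 1 → ∀ i, ℓ ^ n ∣ a i := by
    intro n
    induction n with
    | zero => intro a _ i; rw [pow_zero]; exact one_dvd _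
    | succ n ih =>
      intro a ha
      have h1 : ∏ i, b i ^ a i = 1 := by
        have h2 := congrArg (· ^ ℓ ^ n) ha
        simp only [one_pow, ← Finset.prod_pow] at h2
        rw [← h2]
        refine Finset.prod_congr rfl fun i _ => ?_
        rw [← pow_mul, mul_comm, pow_mul, add_comm n 1, htk, ht1]
      have h3 := hb3 a h1
      choose c hc using h3
      have h4 : ∏ i, t i n ^ c i = 1 := by
        rw [← ha]
        refine Finset.prod_congr rfl fun i _ => ?_
        rw [hc i, pow_mul, hts]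
      intro i
      rw [hc i, pow_succ']
      exact Nat.mul_dvd_mul_left ℓ (ih c h4 i)
  -- surjectivity, for natural exponents
  have hsur : ∀ n (D : J), D ^ ℓ ^ n = 1 → ∃ a : Fin h → ℕ, D = ∏ i, t i n ^ a i := by
    intro n
    induction n with
    | zero =>
      intro D hD
      rw [pow_zero, pow_one] at hD
      exact ⟨fun _ => 0, by rw [hD]; simp⟩
    | succ n ih =>
      intro D hD
      have h1 : (D ^ ℓ ^ n) ^ ℓ = 1 := by rw [← pow_mul, ← pow_succ, hD]
      obtain ⟨a, ha⟩ := hb2 _ h1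
      have h2 : (D * (∏ i, t i (n + 1) ^ a i)⁻¹) ^ ℓ ^ n = 1 := by
        rw [mul_pow, ha, inv_pow, ← Finset.prod_pow, mul_inv_eq_one]
        refine Finset.prod_congr rfl fun i _ => ?_
        rw [← pow_mul, mul_comm, pow_mul, add_comm n 1, htk, ht1]
      obtain ⟨c, hc⟩ := ih _ h2
      refine ⟨fun i => ℓ * c i + a i, ?_⟩
      rw [mul_inv_eq_iff_eq_mul] at hc
      rw [hc, ← Finset.prod_mul_distrib]
      refine Finset.prod_congr rfl fun i _ => ?_
      rw [pow_add, pow_mul, hts]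
  refine ⟨fun n x => ∏ i, t i n ^ (x i).appr n, ⟨?_, ?_, ?_⟩, ?_⟩
  · intro n x y
    rw [← Finset.prod_mul_distrib]
    exact Finset.prod_congr rfl fun i _ => pow_appr (htn i n) (x i) (y i)
  · intro n x
    rw [← Finset.prod_pow]
    refine Finset.prod_congr rfl fun i _ => ?_
    rw [← pow_mul, mul_comm, pow_mul, hts]
    apply hmod
    have h1 := PadicInt.cast_toZModPow n (n + 1) (Nat.le_succ n) (x i)
    rw [happr, ← h1, ← happr, ZMod.cast_natCast (pow_dvd_pow ℓ (Nat.le_succ n))]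
  · intro n x
    constructor
    · intro hx
      have h1 := hker n _ hx
      have h2 : ∀ i, ∃ y : ℤ_[ℓ], x i = (ℓ : ℤ_[ℓ]) ^ n * y := by
        intro i
        have h3 : PadicInt.toZModPow n (x i) = 0 := by
          rw [← happr]
          exact (ZMod.natCast_eq_zero_iff _ _).2 (h1 i)
        have h4 : x i ∈ RingHom.ker (PadicInt.toZModPow n : ℤ_[ℓ] →+* ZMod (ℓ ^ n)) := h3
        rw [PadicInt.ker_toZModPow, Ideal.mem_span_singleton] at h4
        exact h4
      choose y hy using h2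
      exact ⟨y, funext fun i => hy i⟩
    · rintro ⟨y, rfl⟩
      refine Finset.prod_eq_one fun i _ => ?_
      have h3 : (((ℓ : ℤ_[ℓ]) ^ n • y) i).appr n = 0 := by
        have h4 : ((ℓ : ℤ_[ℓ]) ^ n • y) i ∈
            RingHom.ker (PadicInt.toZModPow n : ℤ_[ℓ] →+* ZMod (ℓ ^ n)) := by
          rw [PadicInt.ker_toZModPow, Ideal.mem_span_singleton]
          exact ⟨y i, rfl⟩
        rw [RingHom.mem_ker, ← happr, ZMod.natCast_eq_zero_iff] at h4
        exact Nat.eq_zero_of_dvd_of_lt h4 (PadicInt.appr_lt _ _)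
      rw [h3, pow_zero]
  · intro n D hD
    obtain ⟨a, ha⟩ := hsur n D hD
    refine ⟨fun i => (a i : ℤ_[ℓ]), ?_⟩
    rw [ha]
    refine Finset.prod_congr rfl fun i _ => ?_
    apply hmod
    rw [happr, map_natCast]

end Pool.Agent.TIFB
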