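import Pool.Agent.TIFB.Bas

/-!
# [TIF] TORS-7: the matrix of the pairing
-/

set_option autoImplicit false
set_option linter.unusedSectionVars false

namespace Pool.Agent.TIFB

open Pool.Agent.TIFA

variable {J : Type*} [CommGroup J] {Ω : Type*} [Field Ω] {ℓ : ℕ} [Fact ℓ.Prime] {h : ℕ}

/-- A pairing on the `ℓ`-power torsion: `e (ℓ ^ n)` is the pairing on `J[ℓ ^ n]`. -/
structure LPair (ℓ : ℕ) (e : ℕ → J → J → Ω) : Prop where
  pow : ∀ n D D', D ^ ℓ ^ n = 1 → D' ^ ℓ ^ n = 1 → e (ℓ ^ n) D D' ^ ℓ ^ n = 1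
  mul_left : ∀ n D₁ D₂ D', D₁ ^ ℓ ^ n = 1 → D₂ ^ ℓ ^ n = 1 → D' ^ ℓ ^ n = 1 →
    e (ℓ ^ n) (D₁ * D₂) D' = e (ℓ ^ n) D₁ D' * e (ℓ ^ n) D₂ D'
  mul_right : ∀ n D D₁ D₂, D ^ ℓ ^ n = 1 → D₁ ^ ℓ ^ n = 1 → D₂ ^ ℓ ^ n = 1 →
    e (ℓ ^ n) D (D₁ * D₂) = e (ℓ ^ n) D D₁ * e (ℓ ^ n) D D₂
  anti : ∀ n D D', D ^ ℓ ^ n = 1 → D' ^ ℓ ^ n = 1 → e (ℓ ^ n) D D' * e (ℓ ^ n) D' D = 1
  compat : ∀ n D D', D ^ ℓ ^ n = 1 → D' ^ ℓ ^ (n + 1) = 1 →
    e (ℓ ^ (n + 1)) D D' = e (ℓ ^ n) D (D' ^ ℓ)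
  nondeg : ∀ n D, D ^ ℓ ^ n = 1 → (∀ D', D' ^ ℓ ^ n = 1 → e (ℓ ^ n) D D' = 1) → D = 1

theorem TS.tors {tau : ℕ → (Fin h → ℤ_[ℓ]) → J} (H : TS ℓ h tau) (n : ℕ) (x : Fin h → ℤ_[ℓ]) :
    tau n x ^ ℓ ^ n = 1 := by
  rw [← H.nsmul, H.ker]
  exact ⟨x, by rw [← Nat.cast_smul_eq_nsmul ℤ_[ℓ], Nat.cast_pow]⟩

theorem hom_ext' {C : Type*} [AddCommGroup C] (n : ℕ) (F G : (Fin h → ℤ_[ℓ]) →+ C)
    (hF : ∀ y, F ((ℓ : ℤ_[ℓ]) ^ n • y) = 0) (hG : ∀ y, G ((ℓ : ℤ_[ℓ]) ^ n • y) = 0)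
    (hFG : ∀ i, F (Pi.single i 1) = G (Pi.single i 1)) (x : Fin h → ℤ_[ℓ]) : F x = G x := by
  have h1 : ∀ i, ∃ y : ℤ_[ℓ], x i - (x i).appr n = (ℓ : ℤ_[ℓ]) ^ n * y := by
    intro i
    have := PadicInt.appr_spec n (x i)
    rwa [Ideal.mem_span_singleton] at this
  choose y hy using h1
  have h2 : x = (∑ i, (x i).appr n • (Pi.single i 1 : Fin h → ℤ_[ℓ])) + (ℓ : ℤ_[ℓ]) ^ n • y := by
    funext i
    rw [Pi.add_apply, Finset.sum_apply, Pi.smul_apply, smul_eq_mul, ← hy i,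
      Finset.sum_eq_single i]
    · rw [Pi.smul_apply, Pi.single_eq_same, nsmul_eq_mul, mul_one]
      ring
    · intro j _ hj
      rw [Pi.smul_apply, Pi.single_eq_of_ne (Ne.symm hj), smul_zero]
    · intro hi
      exact absurd (Finset.mem_univ _) hi
  rw [h2, map_add, map_add, hF, hG, map_sum, map_sum]
  congr 1
  refine Finset.sum_congr rfl fun i _ => ?_
  rw [map_nsmul, map_nsmul, hFG]

/-- Limits of sequences of residues. -/
theorem exists_limit (u : ℕ → ℕ) (hu : ∀ n, u (n + 1) ≡ u n [MOD ℓ ^ n]) :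
    ∃ a : ℤ_[ℓ], ∀ n, PadicInt.toZModPow n a = (u n : ZMod (ℓ ^ n)) := by
  have hl : (1 : ℝ) < (ℓ : ℝ) := by exact_mod_cast (Fact.out : ℓ.Prime).one_lt
  have hstep : ∀ n, ‖((u (n + 1) : ℤ_[ℓ]) - (u n : ℤ_[ℓ]))‖ ≤ ((ℓ : ℝ)⁻¹) ^ n := by
    intro n
    have h1 : ((u (n + 1) : ℤ_[ℓ]) - (u n : ℤ_[ℓ])) ∈ Ideal.span {(ℓ : ℤ_[ℓ]) ^ n} := by
      rw [← PadicInt.ker_toZModPow, RingHom.mem_ker, map_sub, map_natCast, map_natCast, sub_eq_zero]
      exact (ZMod.natCast_eq_natCast_iff _ _ _).2 (hu n)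
    rw [← PadicInt.norm_le_pow_iff_mem_span_pow, zpow_neg, zpow_natCast] at h1
    rwa [inv_pow]
  have hfar : ∀ n k, ‖((u (n + k) : ℤ_[ℓ]) - (u n : ℤ_[ℓ]))‖ ≤ ((ℓ : ℝ)⁻¹) ^ n := by
    intro n k
    induction k with
    | zero => rw [add_zero, sub_self, norm_zero]; positivity
    | succ k ih =>
      have h6 : ((u (n + (k + 1)) : ℤ_[ℓ]) - (u n : ℤ_[ℓ]))
          = ((u (n + k + 1) : ℤ_[ℓ]) - (u (n + k) : ℤ_[ℓ])) +
            ((u (n + k) : ℤ_[ℓ]) - (u n : ℤ_[ℓ])) := by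
        rw [← add_assoc]; ring
      rw [h6]
      refine (PadicInt.nonarchimedean _ _).trans (max_le ((hstep _).trans ?_) ih)
      exact pow_le_pow_of_le_one (by positivity) (inv_lt_one_of_one_lt₀ hl).le
        (Nat.le_add_right _ _)
  obtain ⟨a, ha⟩ : ∃ a : ℤ_[ℓ], Filter.Tendsto (fun n => (u n : ℤ_[ℓ])) Filter.atTop (nhds a) := by
    refine cauchySeq_tendsto_of_complete (cauchySeq_of_le_geometric ((ℓ : ℝ)⁻¹) 1
      (inv_lt_one_of_one_lt₀ hl) fun n => ?_)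
    rw [dist_eq_norm, norm_sub_rev, one_mul]
    exact hstep n
  refine ⟨a, fun n => ?_⟩
  have h7 : ‖a - (u n : ℤ_[ℓ])‖ ≤ (ℓ : ℝ) ^ (-(n : ℤ)) := by
    rw [zpow_neg, zpow_natCast, ← inv_pow]
    have h8 : Filter.Tendsto (fun m => ‖(u m : ℤ_[ℓ]) - (u n : ℤ_[ℓ])‖) Filter.atTop
        (nhds ‖a - (u n : ℤ_[ℓ])‖) := (ha.sub_const _).norm
    refine le_of_tendsto h8 ?_
    filter_upwards [Filter.eventually_ge_atTop n] with m hm
    obtain ⟨k, rfl⟩ := Nat.exists_eq_add_of_le hm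
    exact hfar n k
  rw [PadicInt.norm_le_pow_iff_mem_span_pow, ← PadicInt.ker_toZModPow, RingHom.mem_ker, map_sub,
    map_natCast, sub_eq_zero] at h7
  exact h7

/-- `ℓ`-adic integers which agree modulo all `ℓ ^ n`. -/
theorem eq_of_toZModPow {a b : ℤ_[ℓ]} (hab : ∀ n, PadicInt.toZModPow n a = PadicInt.toZModPow n b) :
    a = b := PadicInt.ext_of_toZModPow.1 hab

section

variable {zeta : ℕ → Ω} (hz : ∀ n, IsPrimitiveRoot (zeta n) (ℓ ^ n))
  (hs : ∀ n, zeta (n + 1) ^ ℓ = zeta n)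

include hz

theorem zeta_pow_inj {n : ℕ} {a b : ZMod (ℓ ^ n)} (hab : zeta n ^ a.val = zeta n ^ b.val) :
    a = b := by
  have : NeZero (ℓ ^ n) := ⟨pow_ne_zero n (Fact.out : ℓ.Prime).ne_zero⟩
  exact ZMod.val_injective _ ((hz n).pow_inj (ZMod.val_lt _) (ZMod.val_lt _) hab)

theorem zeta_pow_cast {n : ℕ} (a : ℕ) : zeta n ^ ((a : ZMod (ℓ ^ n))).val = zeta n ^ a := by
  have : NeZero (ℓ ^ n) := ⟨pow_ne_zero n (Fact.out : ℓ.Prime).ne_zero⟩
  rw [ZMod.val_natCast]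
  conv_rhs => rw [← Nat.mod_add_div a (ℓ ^ n)]
  rw [pow_add, pow_mul, (hz n).pow_eq_one, one_pow, mul_one]

theorem zeta_pow_add {n : ℕ} (a b : ZMod (ℓ ^ n)) :
    zeta n ^ (a + b).val = zeta n ^ a.val * zeta n ^ b.val := by
  have : NeZero (ℓ ^ n) := ⟨pow_ne_zero n (Fact.out : ℓ.Prime).ne_zero⟩
  have h2 := AddChar.map_add_eq_mul (AddChar.zmodChar (ℓ ^ n) (hz n).pow_eq_one) a b
  rwa [AddChar.zmodChar_apply, AddChar.zmodChar_apply, AddChar.zmodChar_apply] at h2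

theorem zeta_modEq {n a b : ℕ} (hab : zeta n ^ a = zeta n ^ b) : a ≡ b [MOD ℓ ^ n] := by
  rw [← zeta_pow_cast hz a, ← zeta_pow_cast hz b] at hab
  exact (ZMod.natCast_eq_natCast_iff _ _ _).1 (zeta_pow_inj hz hab)

theorem zeta_ne {n : ℕ} : zeta n ≠ 0 := (hz n).ne_zero (pow_ne_zero n (Fact.out : ℓ.Prime).ne_zero)

include hs

/-- **GRAM.** -/
theorem gram {tau : ℕ → (Fin h → ℤ_[ℓ]) → J} (H : TBs ℓ h tau) {e : ℕ → J → J → Ω}
    (P : LPair ℓ e) : ∃ E : Matrix (Fin h) (Fin h) ℤ_[ℓ], IsUnit E.det ∧ E.transpose = -E ∧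
      ∀ n x y, e (ℓ ^ n) (tau n x) (tau n y) =
        zeta n ^ (PadicInt.toZModPow n (x ⬝ᵥ E.mulVec y)).val := by
  classical
  have hpos : ∀ n, NeZero (ℓ ^ n) := fun n => ⟨pow_ne_zero n (Fact.out : ℓ.Prime).ne_zero⟩
  have T := H.toTS.tors
  -- the exponents
  have hexp : ∀ n (x y : Fin h → ℤ_[ℓ]), ∃ c : ℕ, e (ℓ ^ n) (tau n x) (tau n y) = zeta n ^ c := by
    intro n x y
    have := hpos n
    obtain ⟨c, -, hc⟩ := (hz n).eq_pow_of_pow_eq_one (P.pow n _ _ (T n x) (T n y))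
    exact ⟨c, hc.symm⟩
  choose c hc using hexp
  -- powers in the first variable
  have hpowl : ∀ n D D', D ^ ℓ ^ n = 1 → D' ^ ℓ ^ n = 1 → ∀ m : ℕ,
      e (ℓ ^ n) (D ^ m) D' = e (ℓ ^ n) D D' ^ m := by
    intro n D D' hD hD' m
    have h1 : e (ℓ ^ n) 1 D' = 1 := by
      have h2 := P.mul_left n 1 1 D' (one_pow _) (one_pow _) hD'
      rw [mul_one] at h2
      have h3 := P.pow n 1 D' (one_pow _) hD'
      have h4 : e (ℓ ^ n) 1 D' ≠ 0 := by
        intro h0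
        rw [h0, zero_pow (pow_ne_zero n (Fact.out : ℓ.Prime).ne_zero)] at h3
        exact zero_ne_one h3
      exact (mul_left_cancel₀ h4 (by rw [mul_one]; exact h2)).symm
    induction m with
    | zero => rw [pow_zero, pow_zero, h1]
    | succ m ih =>
      rw [pow_succ, P.mul_left n _ _ _ (by rw [← pow_mul, mul_comm, pow_mul, hD, one_pow]) hD hD',
        ih, pow_succ]
  have hcomp : ∀ n x y, c (n + 1) x y ≡ c n x y [MOD ℓ ^ n] := by
    intro n x y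
    have h1 : e (ℓ ^ n) (tau n x) (tau n y) = e (ℓ ^ (n + 1)) (tau n x) (tau (n + 1) y) := by
      rw [P.compat n _ _ (T n x) (T (n + 1) y), H.step]
    have h2 : e (ℓ ^ (n + 1)) (tau n x) (tau (n + 1) y)
        = e (ℓ ^ (n + 1)) (tau (n + 1) x) (tau (n + 1) y) ^ ℓ := by
      rw [← hpowl (n + 1) _ _ (T (n + 1) x) (T (n + 1) y), H.step]
    rw [h2, hc, hc, ← pow_mul, mul_comm, pow_mul, hs] at h1
    exact (zeta_modEq hz h1).symm
  have hlim := fun i j : Fin h => exists_limit (fun n => c n (Pi.single i 1) (Pi.single j 1))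
    (fun n => hcomp n _ _)
  choose E hE using hlim
  -- the values as units
  have hne : ∀ n x y, e (ℓ ^ n) (tau n x) (tau n y) ≠ 0 := by
    intro n x y
    rw [hc]
    exact pow_ne_zero _ (zeta_ne hz)
  have hform : ∀ n x y, e (ℓ ^ n) (tau n x) (tau n y) =
      zeta n ^ (PadicInt.toZModPow n (x ⬝ᵥ (Matrix.of E).mulVec y)).val := by
    intro n
    have hk : ∀ y : Fin h → ℤ_[ℓ], tau n ((ℓ : ℤ_[ℓ]) ^ n • y) = 1 := fun y =>
      (H.ker n _).2 ⟨y, rfl⟩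
    have hzk : ∀ a : ℤ_[ℓ], PadicInt.toZModPow n ((ℓ : ℤ_[ℓ]) ^ n * a) = 0 := by
      intro a
      rw [← RingHom.mem_ker, PadicInt.ker_toZModPow, Ideal.mem_span_singleton]
      exact ⟨a, rfl⟩
    let Lx : (Fin h → ℤ_[ℓ]) → (Fin h → ℤ_[ℓ]) →+ Additive Ωˣ := fun y =>
      AddMonoidHom.mk' (fun x => Additive.ofMul (Units.mk0 _ (hne n x y))) (by
        intro a b
        apply Additive.toMul.injective
        apply Units.ext
        change e (ℓ ^ n) (tau n (a + b)) (tau n y) = e (ℓ ^ n) (tau n a) (tau n y) *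
          e (ℓ ^ n) (tau n b) (tau n y)
        rw [H.add, P.mul_left n _ _ _ (T n a) (T n b) (T n y)])
    let Ly : (Fin h → ℤ_[ℓ]) → (Fin h → ℤ_[ℓ]) →+ Additive Ωˣ := fun x =>
      AddMonoidHom.mk' (fun y => Additive.ofMul (Units.mk0 _ (hne n x y))) (by
        intro a b
        apply Additive.toMul.injective
        apply Units.ext
        change e (ℓ ^ n) (tau n x) (tau n (a + b)) = e (ℓ ^ n) (tau n x) (tau n a) *
          e (ℓ ^ n) (tau n x) (tau n b)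
        rw [H.add, P.mul_right n _ _ _ (T n x) (T n a) (T n b)])
    let Z : ℤ_[ℓ] → Additive Ωˣ := fun a => Additive.ofMul (Units.mk0
      (zeta n ^ (PadicInt.toZModPow n a).val) (pow_ne_zero _ (zeta_ne hz)))
    have hZadd : ∀ a b, Z (a + b) = Z a + Z b := by
      intro a b
      apply Additive.toMul.injective
      apply Units.ext
      change zeta n ^ (PadicInt.toZModPow n (a + b)).val = zeta n ^ (PadicInt.toZModPow n a).val *
        zeta n ^ (PadicInt.toZModPow n b).val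
      rw [map_add, zeta_pow_add hz]
    have hZ0 : ∀ a, Z ((ℓ : ℤ_[ℓ]) ^ n * a) = 0 := by
      intro a
      apply Additive.toMul.injective
      apply Units.ext
      change zeta n ^ (PadicInt.toZModPow n ((ℓ : ℤ_[ℓ]) ^ n * a)).val = 1
      have := hpos n
      rw [hzk, ZMod.val_zero, pow_zero]
    let Rx : (Fin h → ℤ_[ℓ]) → (Fin h → ℤ_[ℓ]) →+ Additive Ωˣ := fun y =>
      AddMonoidHom.mk' (fun x => Z (x ⬝ᵥ (Matrix.of E).mulVec y)) (by
        intro a b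
        rw [add_dotProduct, hZadd])
    let Ry : (Fin h → ℤ_[ℓ]) → (Fin h → ℤ_[ℓ]) →+ Additive Ωˣ := fun x =>
      AddMonoidHom.mk' (fun y => Z (x ⬝ᵥ (Matrix.of E).mulVec y)) (by
        intro a b
        rw [Matrix.mulVec_add, dotProduct_add, hZadd])
    have hLx0 : ∀ y z, Lx y ((ℓ : ℤ_[ℓ]) ^ n • z) = 0 := by
      intro y z
      apply Additive.toMul.injective
      apply Units.ext
      change e (ℓ ^ n) (tau n ((ℓ : ℤ_[ℓ]) ^ n • z)) (tau n y) = 1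
      rw [hk, ← pow_zero (tau n y), hpowl n _ _ (T n y) (T n y), pow_zero]
    have hLy0 : ∀ x z, Ly x ((ℓ : ℤ_[ℓ]) ^ n • z) = 0 := by
      intro x z
      apply Additive.toMul.injective
      apply Units.ext
      change e (ℓ ^ n) (tau n x) (tau n ((ℓ : ℤ_[ℓ]) ^ n • z)) = 1
      have h5 := P.anti n _ _ (T n x) (T n ((ℓ : ℤ_[ℓ]) ^ n • z))
      have h6 : e (ℓ ^ n) (tau n ((ℓ : ℤ_[ℓ]) ^ n • z)) (tau n x) = 1 := by
        rw [hk, ← pow_zero (tau n x), hpowl n _ _ (T n x) (T n x), pow_zero]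
      rwa [h6, mul_one] at h5
    intro x y
    have key : Lx y x = Rx y x := by
      apply hom_ext' n
      · exact hLx0 y
      · intro z
        change Z (((ℓ : ℤ_[ℓ]) ^ n • z) ⬝ᵥ (Matrix.of E).mulVec y) = 0
        rw [smul_dotProduct, smul_eq_mul, hZ0]
      · intro i
        change Ly (Pi.single i 1) y = Ry (Pi.single i 1) y
        apply hom_ext' n
        · exact hLy0 _
        · intro z
          change Z ((Pi.single i 1 : Fin h → ℤ_[ℓ]) ⬝ᵥ (Matrix.of E).mulVec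
            ((ℓ : ℤ_[ℓ]) ^ n • z)) = 0
          rw [Matrix.mulVec_smul, dotProduct_smul, smul_eq_mul, hZ0]
        · intro j
          apply Additive.toMul.injective
          apply Units.ext
          change e (ℓ ^ n) (tau n (Pi.single i 1)) (tau n (Pi.single j 1)) = zeta n ^
            (PadicInt.toZModPow n ((Pi.single i 1 : Fin h → ℤ_[ℓ]) ⬝ᵥ (Matrix.of E).mulVec
              (Pi.single j 1))).val
          have h7 : (Pi.single i 1 : Fin h → ℤ_[ℓ]) ⬝ᵥ (Matrix.of E).mulVec (Pi.single j 1)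
              = E i j := by
            rw [single_dotProduct, one_mul, Matrix.mulVec_single_one]
            rfl
          rw [h7, hE, zeta_pow_cast hz, hc]
    exact congrArg (fun z : Additive Ωˣ => ((Additive.toMul z : Ωˣ) : Ω)) key
  refine ⟨Matrix.of E, ?_, ?_, hform⟩
  · -- the determinant is a unit
    have := hpos 1
    by_contra hdet
    have h1 : PadicInt.toZMod (Matrix.of E).det = 0 := by
      rw [← RingHom.mem_ker, PadicInt.ker_toZMod]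
      exact (IsLocalRing.mem_maximalIdeal _).2 hdet
    have h2 : ((Matrix.of E).map (PadicInt.toZMod : ℤ_[ℓ] →+* ZMod ℓ)).det = 0 := by
      rw [← RingHom.mapMatrix_apply, ← RingHom.map_det, h1]
    obtain ⟨v, hv0, hv⟩ := Matrix.exists_vecMul_eq_zero_iff.2 h2
    have hsurj : ∀ a : ZMod ℓ, ∃ b : ℤ_[ℓ], PadicInt.toZMod b = a := fun a =>
      ⟨(a.val : ℤ_[ℓ]), by rw [map_natCast, ZMod.natCast_val, ZMod.cast_id', id]⟩
    choose w hw using fun i => hsurj (v i)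
    have h3 : ∀ i, ∃ b : ℤ_[ℓ], ((Matrix.of E).vecMul w) i = (ℓ : ℤ_[ℓ]) * b := by
      intro i
      have h4 : PadicInt.toZMod (((Matrix.of E).vecMul w) i) = 0 := by
        have h5 := congrFun hv i
        rw [Pi.zero_apply] at h5
        rw [← h5, Matrix.vecMul, dotProduct, map_sum, Matrix.vecMul, dotProduct]
        refine Finset.sum_congr rfl fun j _ => ?_
        rw [map_mul, hw]
        rfl
      rw [← RingHom.mem_ker, PadicInt.ker_toZMod, PadicInt.maximalIdeal_eq_span_p,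
        Ideal.mem_span_singleton] at h4
      exact h4
    choose b hb using h3
    have h6 : tau 1 w = 1 := by
      refine P.nondeg 1 _ (T 1 w) fun D' hD' => ?_
      obtain ⟨y, rfl⟩ := H.sur 1 D' hD'
      rw [hform]
      have h7 : w ⬝ᵥ (Matrix.of E).mulVec y = (ℓ : ℤ_[ℓ]) ^ 1 * (b ⬝ᵥ y) := by
        rw [Matrix.dotProduct_mulVec, pow_one]
        have h8 : (Matrix.of E).vecMul w = (ℓ : ℤ_[ℓ]) • b := funext fun i => hb i
        rw [h8, smul_dotProduct, smul_eq_mul]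
      have h9 : PadicInt.toZModPow 1 (w ⬝ᵥ (Matrix.of E).mulVec y) = 0 := by
        rw [h7, ← RingHom.mem_ker, PadicInt.ker_toZModPow, Ideal.mem_span_singleton]
        exact ⟨_, rfl⟩
      rw [h9, ZMod.val_zero, pow_zero]
    obtain ⟨y, hy⟩ := (H.ker 1 w).1 h6
    apply hv0
    funext i
    rw [← hw i, Pi.zero_apply, ← RingHom.mem_ker, PadicInt.ker_toZMod,
      PadicInt.maximalIdeal_eq_span_p, Ideal.mem_span_singleton]
    refine ⟨y i, ?_⟩
    have := congrFun hy i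
    rwa [Pi.smul_apply, smul_eq_mul, pow_one] at this
  · -- alternating
    have hanti : ∀ x y : Fin h → ℤ_[ℓ], x ⬝ᵥ (Matrix.of E).mulVec y +
        y ⬝ᵥ (Matrix.of E).mulVec x = 0 := by
      intro x y
      apply eq_of_toZModPow
      intro n
      have := hpos n
      rw [map_zero]
      apply zeta_pow_inj hz
      rw [map_add, zeta_pow_add hz, ← hform, ← hform, P.anti n _ _ (T n x) (T n y), ZMod.val_zero,
        pow_zero]
    ext i j
    have h1 := hanti (Pi.single j 1) (Pi.single i 1)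
    rw [single_dotProduct, single_dotProduct, one_mul, one_mul, Matrix.mulVec_single_one,
      Matrix.mulVec_single_one] at h1
    rw [Matrix.transpose_apply, Matrix.neg_apply]
    exact eq_neg_of_add_eq_zero_left h1

omit hs in
/-- A similitude of the pairing. -/
theorem gram_sim {tau : ℕ → (Fin h → ℤ_[ℓ]) → J} (H : TS ℓ h tau) {e : ℕ → J → J → Ω}
    (E : Matrix (Fin h) (Fin h) ℤ_[ℓ])
    (hE : ∀ n x y, e (ℓ ^ n) (tau n x) (tau n y) =
      zeta n ^ (PadicInt.toZModPow n (x ⬝ᵥ E.mulVec y)).val) (s : J → J) (q : ℕ)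
    (hsim : ∀ n D D', D ^ ℓ ^ n = 1 → D' ^ ℓ ^ n = 1 →
      e (ℓ ^ n) (s D) (s D') = e (ℓ ^ n) D D' ^ q)
    (R : Matrix (Fin h) (Fin h) ℤ_[ℓ]) (hR : ∀ n x, s (tau n x) = tau n (R.mulVec x)) :
    R.transpose * E * R = (q : ℤ_[ℓ]) • E := by
  have T := H.tors
  have h1 : ∀ x y : Fin h → ℤ_[ℓ], R.mulVec x ⬝ᵥ E.mulVec (R.mulVec y)
      = (q : ℤ_[ℓ]) * (x ⬝ᵥ E.mulVec y) := by
    intro x y
    apply eq_of_toZModPow
    intro n
    have : NeZero (ℓ ^ n) := ⟨pow_ne_zero n (Fact.out : ℓ.Prime).ne_zero⟩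
    apply zeta_pow_inj hz
    rw [← hE, ← hR, ← hR, hsim n _ _ (T n x) (T n y), hE, ← pow_mul, map_mul, map_natCast,
      ← zeta_pow_cast hz ((PadicInt.toZModPow n (x ⬝ᵥ E.mulVec y)).val * q), Nat.cast_mul,
      ZMod.natCast_val, ZMod.cast_id', id, mul_comm]
  ext i j
  have h2 := h1 (Pi.single i 1) (Pi.single j 1)
  rw [single_dotProduct, one_mul, Matrix.mulVec_mulVec, Matrix.dotProduct_mulVec,
    ← Matrix.vecMul_transpose, Matrix.vecMul_vecMul, dotProduct_single, mul_one,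
    Matrix.single_one_vecMul, ← mul_assoc] at h2
  rw [Matrix.smul_apply, smul_eq_mul]
  have h3 : (R.transpose * E * R) i j = (q : ℤ_[ℓ]) * (E.mulVec (Pi.single j 1)) i := h2
  rw [h3, Matrix.mulVec_single_one]
  rfl

end

end Pool.Agent.TIFB
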